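import Mathlib.LinearAlgebra.FreeModule.PID
import Mathlib.RingTheory.Flat.TorsionFree
import Mathlib.LinearAlgebra.SymplecticGroup
import Mathlib.Analysis.RCLike.Lemmas
import Mathlib.Data.Sym.Card
import Mathlib.Algebra.Order.Star.Real
import Mathlib.LinearAlgebra.Matrix.FiniteDimensional
import Mathlib.RingTheory.SimpleRing.Principal
import Mathlib.RingTheory.TotallySplit
import Mathlib.Tactic.Polynomial.Basic

/-!
Subalgebras of small codimension in the real symplectic Lie algebra.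
-/

set_option autoImplicit false

open Matrix Module Polynomial

namespace Pool.Agent.MP_609e33_gt

variable {g : ℕ}

/-- Square real matrices of size `2 g`. -/
abbrev Mat (g : ℕ) : Type := Matrix (Fin g ⊕ Fin g) (Fin g ⊕ Fin g) ℝ

/-- The standard complex structure. -/
noncomputable abbrev JJ (g : ℕ) : Mat g := Matrix.J (Fin g) ℝ

lemma JJ_sq : JJ g * JJ g = -1 := Matrix.J_squared _ _

lemma JJ_T : (JJ g)ᵀ = -JJ g := Matrix.J_transpose _ _

lemma JJ_mul (X : Mat g) : JJ g * (JJ g * X) = -X := by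
  rw [← Matrix.mul_assoc, JJ_sq, neg_mul, one_mul]

/-- The symplectic Lie algebra. -/
def sp (g : ℕ) : Submodule ℝ (Mat g) where
  carrier := {X | Xᵀ * JJ g = -(JJ g * X)}
  add_mem' := by
    intro X Y hX hY
    simp only [Set.mem_ofPred_eq, transpose_add, add_mul, mul_add, neg_add] at *
    rw [hX, hY]
  zero_mem' := by simp
  smul_mem' := by
    intro c X hX
    simp only [Set.mem_ofPred_eq, transpose_smul, smul_mul_assoc, mul_smul_comm] at *
    rw [hX, smul_neg]

/-- Its symmetric part. -/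
def pp (g : ℕ) : Submodule ℝ (Mat g) where
  carrier := {Y | Yᵀ = Y ∧ Y * JJ g = -(JJ g * Y)}
  add_mem' := by
    rintro X Y ⟨hX, hX'⟩ ⟨hY, hY'⟩
    simp only [Set.mem_ofPred_eq, transpose_add, add_mul, mul_add, neg_add]
    rw [hX, hY, hX', hY']
    exact ⟨rfl, rfl⟩
  zero_mem' := by simp
  smul_mem' := by
    rintro c X ⟨hX, hX'⟩
    simp only [Set.mem_ofPred_eq, transpose_smul, smul_mul_assoc, mul_smul_comm]
    rw [hX, hX', smul_neg]
    exact ⟨rfl, rfl⟩

lemma mem_sp {X : Mat g} : X ∈ sp g ↔ Xᵀ * JJ g = -(JJ g * X) := Iff.rfl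

lemma mem_pp {Y : Mat g} : Y ∈ pp g ↔ Yᵀ = Y ∧ Y * JJ g = -(JJ g * Y) := Iff.rfl

lemma pp_le_sp : pp g ≤ sp g := fun Y hY => by
  rw [mem_sp, hY.1, hY.2]

lemma J_mul_mem_pp {Y : Mat g} (hY : Y ∈ pp g) : JJ g * Y ∈ pp g := by
  constructor
  · rw [transpose_mul, hY.1, JJ_T, mul_neg, hY.2, neg_neg]
  · rw [Matrix.mul_assoc, hY.2, mul_neg]

lemma J_mul_mem_sp {P : Mat g} (h1 : Pᵀ = P) (h2 : JJ g * P = P * JJ g) : JJ g * P ∈ sp g := by
  rw [mem_sp, transpose_mul, h1, JJ_T, mul_neg, neg_mul, ← h2, Matrix.mul_assoc, ← h2]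

lemma J_mem_sp : JJ g ∈ sp g := by
  simpa using J_mul_mem_sp (g := g) (P := 1) (by simp) (by simp)

lemma le_finrank_pp : 2 * (g + 1).choose 2 ≤ finrank ℝ (pp g) := by
  let S : (Sym2 (Fin g) → ℝ) →ₗ[ℝ] Matrix (Fin g) (Fin g) ℝ :=
    { toFun := fun f => Matrix.of fun i j => f s(i, j)
      map_add' := fun _ _ => rfl
      map_smul' := fun _ _ => rfl }
  have hS : ∀ f, (S f)ᵀ = S f := by
    intro f
    ext i j
    simp [S, Sym2.eq_swap]
  have hS0 : ∀ f, S f = 0 → f = 0 := by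
    intro f h
    funext z
    induction z using Sym2.ind with
    | _ i j => exact congrFun (congrFun h i) j
  let T : (Sym2 (Fin g) → ℝ) × (Sym2 (Fin g) → ℝ) →ₗ[ℝ] pp g :=
    { toFun := fun f => ⟨fromBlocks (S f.1) (S f.2) (S f.2) (-S f.1), by
        constructor
        · rw [fromBlocks_transpose, transpose_neg, hS, hS]
        · simp [Matrix.J, fromBlocks_multiply, fromBlocks_neg]⟩
      map_add' := fun f f' => Subtype.ext (by
        change fromBlocks _ _ _ _ = fromBlocks _ _ _ _ + fromBlocks _ _ _ _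
        rw [fromBlocks_add, Prod.fst_add, Prod.snd_add, map_add, map_add, neg_add])
      map_smul' := fun c f => Subtype.ext (by
        change fromBlocks _ _ _ _ = c • fromBlocks _ _ _ _
        rw [fromBlocks_smul, Prod.smul_fst, Prod.smul_snd, map_smul, map_smul, smul_neg]) }
  have hT : Function.Injective T := by
    rw [injective_iff_map_eq_zero]
    intro f h
    have h1 : fromBlocks (S f.1) (S f.2) (S f.2) (-S f.1) = fromBlocks 0 0 0 0 := by
      rw [fromBlocks_zero]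
      exact congrArg Subtype.val h
    rw [fromBlocks_inj] at h1
    exact Prod.ext (hS0 _ h1.1) (hS0 _ h1.2.1)
  have := LinearMap.finrank_le_finrank_of_injective hT
  simp only [finrank_prod, finrank_fintype_fun_eq_card, Sym2.card, Fintype.card_fin] at this
  omega

lemma eq_zero_of_sq {A : Mat g} (h : Aᵀ = A) (h2 : A * A = 0) : A = 0 := by
  have : Aᴴ * A = 0 := by rwa [conjTranspose_eq_transpose_of_trivial, h]
  exact conjTranspose_mul_self_eq_zero.mp this

lemma eq_zero_of_pow {A : Mat g} (h : Aᵀ = A) {n : ℕ} (h2 : A ^ n = 0) (hn : 0 < n) : A = 0 := by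
  induction n using Nat.strong_induction_on with
  | _ n ih =>
    by_cases h1 : n = 1
    · simpa [h1] using h2
    · refine ih ((n + 1) / 2) (by omega) (eq_zero_of_sq (by rw [transpose_pow, h]) ?_) (by omega)
      rw [← pow_add]
      exact pow_eq_zero_of_le (by omega) h2

lemma aeval_T {S : Mat g} (h : Sᵀ = S) (q : ℝ[X]) : (aeval S q)ᵀ = aeval S q := by
  induction q using Polynomial.induction_on' with
  | add p q hp hq => rw [map_add, transpose_add, hp, hq]
  | monomial n a => simp [aeval_monomial, Algebra.algebraMap_eq_smul_one, transpose_pow, h]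

lemma aeval_comm {S A : Mat g} (h : Commute A S) (q : ℝ[X]) : Commute A (aeval S q) := by
  induction q using Polynomial.induction_on' with
  | add p q hp hq => rw [map_add]; exact hp.add_right hq
  | monomial n a =>
    rw [aeval_monomial, Algebra.algebraMap_eq_smul_one, smul_one_mul]
    exact (h.pow_right n).smul_right a

/-- A symmetric matrix `S` satisfies `S = S² q(S)` for some polynomial `q`. -/
lemma exists_poly {S : Mat g} (h : Sᵀ = S) : ∃ q : ℝ[X], S * (S * aeval S q) = S := by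
  have hm : minpoly ℝ S ≠ 0 := minpoly.ne_zero (Algebra.IsIntegral.isIntegral S)
  obtain ⟨r, h1, h2⟩ := exists_eq_pow_rootMultiplicity_mul_and_not_dvd _ hm 0
  simp only [map_zero, sub_zero] at h1 h2
  set e := rootMultiplicity 0 (minpoly ℝ S)
  have h3 : S ^ e * aeval S r = 0 := by
    have := minpoly.aeval ℝ S
    rwa [h1, map_mul, map_pow, aeval_X] at this
  have hc : Commute S (aeval S r) := aeval_comm (Commute.refl S) r
  have h4 : S * aeval S r = 0 := by
    refine eq_zero_of_pow (n := e + 1) ?_ ?_ (by omega)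
    · rw [transpose_mul, aeval_T h, h, hc.eq]
    · rw [hc.mul_pow, pow_succ', pow_succ' (aeval S r), Matrix.mul_assoc,
        ← Matrix.mul_assoc (S ^ e), h3, zero_mul, mul_zero]
  have h5 : r.coeff 0 ≠ 0 := fun h0 => h2 (X_dvd_iff.mpr h0)
  refine ⟨C (-(r.coeff 0)⁻¹) * r.divX, ?_⟩
  have h6 := congrArg (aeval S) (X_mul_divX_add r)
  rw [map_add, map_mul, aeval_X, aeval_C, Algebra.algebraMap_eq_smul_one] at h6
  rw [← h6, mul_add, mul_smul_comm, mul_one] at h4
  rw [map_mul, aeval_C, Algebra.algebraMap_eq_smul_one, smul_one_mul, mul_smul_comm,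
    mul_smul_comm, eq_neg_of_add_eq_zero_left h4, smul_neg, neg_smul, neg_neg, smul_smul,
    inv_mul_cancel₀ h5, one_smul]

/-- A nonzero complex orthogonal projection whose rotation lies in `h`. -/
def HasRot (h : Submodule ℝ (Mat g)) : Prop :=
  ∃ P : Mat g, P ≠ 0 ∧ Pᵀ = P ∧ P * P = P ∧ JJ g * P = P * JJ g ∧ JJ g * P ∈ h

section Lie

variable {h : Submodule ℝ (Mat g)} (hlie : ∀ X ∈ h, ∀ Y ∈ h, X * Y - Y * X ∈ h)
include hlie

omit hlie in
lemma mem_of_two {X Y : Mat g} (hX : X ∈ h) {c : ℝ} (hc : c ≠ 0) (e : X = c • Y) : Y ∈ h := by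
  rw [e] at hX
  exact (h.smul_mem_iff hc).mp hX

/-- The bracket rules for elements built from `Y ∈ p` and matrices commuting with `Y` and `J`. -/
lemma br1 {Y u v : Mat g} (hY : Y * JJ g = -(JJ g * Y)) (hu : Commute (JJ g) u)
    (hv : Commute (JJ g) v) (huY : Commute Y u) (huv : Commute u v)
    (h1 : JJ g * u ∈ h) (h2 : JJ g * (Y * v) ∈ h) : Y * (u * v) ∈ h := by
  refine mem_of_two (hlie _ h1 _ h2) (c := -2) (by norm_num) ?_
  have e1 : JJ g * u * (JJ g * (Y * v)) = -(Y * (u * v)) := by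
    rw [Matrix.mul_assoc, ← Matrix.mul_assoc u, ← hu.eq, Matrix.mul_assoc, JJ_mul,
      ← Matrix.mul_assoc, ← huY.eq, Matrix.mul_assoc]
  have e2 : JJ g * (Y * v) * (JJ g * u) = Y * (u * v) := by
    rw [Matrix.mul_assoc, Matrix.mul_assoc, ← Matrix.mul_assoc v, ← hv.eq, Matrix.mul_assoc,
      ← Matrix.mul_assoc Y, hY, neg_mul, mul_neg, Matrix.mul_assoc, JJ_mul, neg_neg, huv.eq]
  rw [e1, e2]
  module

lemma br2 {Y u v : Mat g} (hY : Y * JJ g = -(JJ g * Y))
    (hv : Commute (JJ g) v) (huY : Commute Y u) (huv : Commute u v)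
    (h1 : JJ g * u ∈ h) (h2 : Y * v ∈ h) : JJ g * (Y * (u * v)) ∈ h := by
  refine mem_of_two (hlie _ h1 _ h2) (c := 2) (by norm_num) ?_
  have e1 : JJ g * u * (Y * v) = JJ g * (Y * (u * v)) := by
    rw [Matrix.mul_assoc, ← Matrix.mul_assoc u, ← huY.eq, Matrix.mul_assoc]
  have e2 : Y * v * (JJ g * u) = -(JJ g * (Y * (u * v))) := by
    rw [Matrix.mul_assoc, ← Matrix.mul_assoc v, ← hv.eq, Matrix.mul_assoc,
      ← Matrix.mul_assoc Y, hY, neg_mul, Matrix.mul_assoc, huv.eq]
  rw [e1, e2]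
  module

lemma br3 {Y u v : Mat g} (hY : Y * JJ g = -(JJ g * Y)) (hu : Commute (JJ g) u)
    (huY : Commute Y u) (hvY : Commute Y v) (huv : Commute u v)
    (h1 : Y * u ∈ h) (h2 : JJ g * (Y * v) ∈ h) : JJ g * (Y * Y * (u * v)) ∈ h := by
  refine mem_of_two (hlie _ h1 _ h2) (c := -2) (by norm_num) ?_
  have e1 : Y * u * (JJ g * (Y * v)) = -(JJ g * (Y * Y * (u * v))) := by
    rw [Matrix.mul_assoc, ← Matrix.mul_assoc u, ← hu.eq, Matrix.mul_assoc,
      ← Matrix.mul_assoc Y, hY, neg_mul, Matrix.mul_assoc, ← Matrix.mul_assoc u, ← huY.eq,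
      Matrix.mul_assoc, Matrix.mul_assoc]
  have e2 : JJ g * (Y * v) * (Y * u) = JJ g * (Y * Y * (u * v)) := by
    rw [Matrix.mul_assoc, Matrix.mul_assoc, ← Matrix.mul_assoc v, ← hvY.eq, Matrix.mul_assoc,
      Matrix.mul_assoc, huv.eq]
  rw [e1, e2]
  module

omit hlie in
lemma comm_J_sq {Y : Mat g} (hY : Y * JJ g = -(JJ g * Y)) : Commute (JJ g) (Y * Y) := by
  rw [Commute, SemiconjBy, Matrix.mul_assoc, hY, mul_neg, ← Matrix.mul_assoc Y, hY, neg_mul,
    neg_neg, Matrix.mul_assoc]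

lemma hasRot_of_complex {Y : Mat g} (hp : Y ∈ pp g) (h0 : Y ≠ 0) (h1 : Y ∈ h)
    (h2 : JJ g * Y ∈ h) : HasRot h := by
  set S := Y * Y with hS
  have hJ : Commute (JJ g) S := comm_J_sq hp.2
  have hY : Commute Y S := (Commute.refl Y).mul_right (Commute.refl Y)
  have hST : Sᵀ = S := by rw [hS, transpose_mul, hp.1]
  have hJS : JJ g * S ∈ h := by
    simpa using br3 hlie (u := 1) (v := 1) hp.2 (Commute.one_right _) (Commute.one_right _)
      (Commute.one_right _) (Commute.refl _) (by simpa using h1) (by simpa using h2)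
  have hpow : ∀ n : ℕ, Y * S ^ n ∈ h ∧ JJ g * (Y * S ^ n) ∈ h := by
    intro n
    induction n with
    | zero => simpa using ⟨h1, h2⟩
    | succ n ih =>
      rw [pow_succ']
      exact ⟨br1 hlie hp.2 hJ (hJ.pow_right n) hY ((Commute.refl S).pow_right n) hJS ih.2,
        br2 hlie hp.2 (hJ.pow_right n) hY ((Commute.refl S).pow_right n) hJS ih.1⟩
  have hq : ∀ q : ℝ[X], JJ g * (S * aeval S q) ∈ h := by
    intro q
    induction q using Polynomial.induction_on' with
    | add p q hp hq => rw [map_add, mul_add, mul_add]; exact h.add_mem hp hq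
    | monomial n a =>
      rw [aeval_monomial, Algebra.algebraMap_eq_smul_one, smul_one_mul, mul_smul_comm,
        mul_smul_comm]
      refine h.smul_mem a ?_
      simpa using br3 hlie (u := 1) (v := S ^ n) hp.2 (Commute.one_right _) (Commute.one_right _)
        (hY.pow_right n) (Commute.one_left _) (by simpa using h1) (hpow n).2
  obtain ⟨q, hq'⟩ := exists_poly hST
  have hc : Commute S (aeval S q) := aeval_comm (Commute.refl S) q
  refine ⟨S * aeval S q, ?_, ?_, ?_, (hJ.mul_right (aeval_comm hJ q)).eq, hq q⟩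
  · intro h3
    rw [h3, mul_zero] at hq'
    exact h0 (eq_zero_of_sq hp.1 hq'.symm)
  · rw [transpose_mul, aeval_T hST, hST, hc.eq]
  · conv_lhs => rw [hc.eq, Matrix.mul_assoc, ← hc.eq, hq']
    exact hc.eq.symm

theorem dichotomy {E : Type} [AddCommGroup E] [Module ℝ E] [FiniteDimensional ℝ E]
    (ev : sp g →ₗ[ℝ] E) (hker : ∀ X : sp g, ev X = 0 ↔ X.1 ∈ h)
    (hd : finrank ℝ E ≤ (g + 1).choose 2) :
    HasRot h ∨ ∃ a ∈ h, a ∈ pp g ∧ a * a = 1 ∧ (∀ X ∈ sp g, X + a * X * a ∈ h) ∧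
      Function.Surjective ev := by
  by_cases hA : HasRot h
  · exact Or.inl hA
  right
  have hreal : ∀ Y ∈ pp g, Y ∈ h → JJ g * Y ∈ h → Y = 0 := fun Y hp h1 h2 => by
    by_contra h0
    exact hA (hasRot_of_complex hlie hp h0 h1 h2)
  -- restriction of `ev` to `p`
  let ev' : pp g →ₗ[ℝ] E := ev.comp (Submodule.inclusion pp_le_sp)
  let Jp : pp g →ₗ[ℝ] pp g :=
    { toFun := fun Y => ⟨JJ g * Y.1, J_mul_mem_pp Y.2⟩
      map_add' := fun _ _ => Subtype.ext (mul_add _ _ _)
      map_smul' := fun _ _ => Subtype.ext (mul_smul_comm _ _ _) }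
  have hk' : ∀ Y : pp g, ev' Y = 0 ↔ Y.1 ∈ h := fun Y => hker _
  have hinj : Function.Injective (ev'.prod (ev'.comp Jp)) := by
    rw [injective_iff_map_eq_zero]
    intro Y hY
    exact Subtype.ext (hreal _ Y.2 ((hk' Y).mp (congrArg Prod.fst hY))
      ((hk' (Jp Y)).mp (congrArg Prod.snd hY)))
  have hdim : finrank ℝ (pp g) = finrank ℝ (E × E) := by
    have h1 := LinearMap.finrank_le_finrank_of_injective hinj
    have h2 := le_finrank_pp (g := g)
    rw [finrank_prod] at h1 ⊢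
    omega
  have hsurj : Function.Surjective (ev'.prod (ev'.comp Jp)) :=
    (LinearMap.injective_iff_surjective_of_finrank_eq_finrank hdim).mp hinj
  have hs : ∀ v : E, ∃ Y ∈ pp g, JJ g * Y ∈ h ∧ ∃ hY : Y ∈ sp g, ev ⟨Y, hY⟩ = v := by
    intro v
    obtain ⟨Y, hY⟩ := hsurj (v, 0)
    exact ⟨Y.1, Y.2, (hk' (Jp Y)).mp (congrArg Prod.snd hY), pp_le_sp Y.2,
      congrArg Prod.fst hY⟩
  have hs' : ∀ X ∈ sp g, ∃ Y ∈ pp g, JJ g * Y ∈ h ∧ X - Y ∈ h := by
    intro X hX
    obtain ⟨Y, h1, h2, h3, h4⟩ := hs (ev ⟨X, hX⟩)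
    refine ⟨Y, h1, h2, (hker (⟨X, hX⟩ - ⟨Y, h3⟩)).mp ?_⟩
    rw [map_sub, h4, sub_self]
  obtain ⟨Y, hYp, hJY, hn⟩ := hs' (-JJ g) ((sp g).neg_mem J_mem_sp)
  have hn0 : JJ g + Y ∈ h := by
    have := h.neg_mem hn
    rwa [neg_sub, sub_neg_eq_add, add_comm] at this
  set S := Y * Y with hS
  have hJ : Commute (JJ g) S := comm_J_sq hYp.2
  have hY : Commute Y S := (Commute.refl Y).mul_right (Commute.refl Y)
  have hJ1 : Commute (JJ g) (S - 1) := hJ.sub_right (Commute.one_right _)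
  have hY1 : Commute Y (S - 1) := hY.sub_right (Commute.one_right _)
  have hS1 : Commute S (S - 1) := (Commute.refl S).sub_right (Commute.one_right _)
  have hD : JJ g * (S - 1) ∈ h := by
    have h1 : Y + JJ g * S ∈ h := by
      refine mem_of_two (hlie _ hJY _ hn0) (c := 2) (by norm_num) ?_
      have e1 : JJ g * Y * JJ g = Y := by rw [Matrix.mul_assoc, hYp.2, mul_neg, JJ_mul, neg_neg]
      have e2 : Y * (JJ g * Y) = -(JJ g * S) := by
        rw [← Matrix.mul_assoc, hYp.2, neg_mul, Matrix.mul_assoc]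
      rw [mul_add, add_mul, e1, e2, JJ_mul, Matrix.mul_assoc, ← hS]
      module
    have := h.sub_mem h1 hn0
    convert this using 1
    rw [mul_sub, mul_one]
    abel
  have hJY1 : JJ g * (Y * 1) ∈ h := by simpa using hJY
  have a1 : Y * ((S - 1) * 1) ∈ h :=
    br1 hlie hYp.2 hJ1 (Commute.one_right _) hY1 (Commute.one_right _) hD hJY1
  rw [mul_one] at a1
  have a2 : JJ g * (S * ((S - 1) * 1)) ∈ h :=
    br3 hlie hYp.2 hJ1 hY1 (Commute.one_right _) (Commute.one_right _) a1 hJY1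
  have a3 : Y * (S * ((S - 1) * 1) * 1) ∈ h :=
    br1 hlie hYp.2 (hJ.mul_right (hJ1.mul_right (Commute.one_right _))) (Commute.one_right _)
      (hY.mul_right (hY1.mul_right (Commute.one_right _))) (Commute.one_right _) a2 hJY1
  have a4 : JJ g * (Y * ((S - 1) * (S - 1))) ∈ h :=
    br2 hlie hYp.2 hJ1 hY1 (Commute.refl _) hD a1
  have a5 : Y * ((S - 1) * (S - 1)) ∈ h := by
    have := h.sub_mem a3 a1
    convert this using 1
    noncomm_ring
  have hST : Sᵀ = S := by rw [hS, transpose_mul, hYp.1]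
  have hS1T : (S - 1)ᵀ = S - 1 := by rw [transpose_sub, hST, transpose_one]
  have a6 : Y * ((S - 1) * (S - 1)) = 0 := by
    refine hreal _ ⟨?_, ?_⟩ a5 a4
    · rw [transpose_mul, transpose_mul, hS1T, hYp.1, (hY1.mul_right hY1).eq]
    · rw [Matrix.mul_assoc, ← (hJ1.mul_right hJ1).eq, ← Matrix.mul_assoc, hYp.2, neg_mul,
        Matrix.mul_assoc]
  have a7 : Y * (S - 1) = 0 := by
    refine eq_zero_of_sq (by rw [transpose_mul, hS1T, hYp.1, hY1.eq]) ?_
    rw [Matrix.mul_assoc, ← Matrix.mul_assoc (S - 1), ← hY1.eq, Matrix.mul_assoc, a6, mul_zero]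
  have a8 : S * S = S := by
    have : S * (S - 1) = 0 := by rw [hS, Matrix.mul_assoc, ← hS, a7, mul_zero]
    rwa [mul_sub, mul_one, sub_eq_zero] at this
  have hS_one : S = 1 := by
    by_contra hne
    refine hA ⟨1 - S, sub_ne_zero.mpr (Ne.symm hne), ?_, ?_, ?_, ?_⟩
    · rw [transpose_sub, hST, transpose_one]
    · rw [mul_sub, sub_mul, sub_mul, a8]
      simp
    · exact ((Commute.one_right _).sub_right hJ).eq
    · have := h.neg_mem hD
      rwa [← mul_neg, neg_sub] at this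
  set a := JJ g * Y with ha
  have hap : a ∈ pp g := J_mul_mem_pp hYp
  have haa : a * a = 1 := by
    rw [ha, ← Matrix.mul_assoc, Matrix.mul_assoc (JJ g) Y, hYp.2, mul_neg, JJ_mul, neg_neg, ← hS,
      hS_one]
  have hYa : Y = -(JJ g * a) := by rw [ha, JJ_mul, neg_neg]
  clear_value a
  have haa' : ∀ X : Mat g, a * (a * X) = X := fun X => by rw [← Matrix.mul_assoc, haa, one_mul]
  -- twice bracketing with `a`
  have hodd : ∀ X ∈ h, X - a * X * a ∈ h := by
    intro X hX
    refine mem_of_two (hlie _ hJY _ (hlie _ hJY _ hX)) (c := 2) (by norm_num) ?_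
    rw [mul_sub, sub_mul, haa', Matrix.mul_assoc X, haa, mul_one, ← Matrix.mul_assoc]
    module
  have hconj : ∀ X ∈ pp g, a * X * a ∈ pp g := by
    intro X hX
    constructor
    · rw [transpose_mul, transpose_mul, hX.1, hap.1, Matrix.mul_assoc]
    · rw [Matrix.mul_assoc, hap.2, mul_neg, ← Matrix.mul_assoc, Matrix.mul_assoc a, hX.2, mul_neg,
        neg_mul, neg_neg, ← Matrix.mul_assoc, hap.2, neg_mul, neg_mul]
      simp only [Matrix.mul_assoc]
  have hE : ∀ X ∈ pp g, X ∈ h → a * X * a = X := by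
    intro X hX hXh
    set X1 := X - a * X * a with hX1
    have b1 : X1 ∈ h := hodd X hXh
    have b2 : X1 ∈ pp g := (pp g).sub_mem hX (hconj X hX)
    have b3 : X1 * a = -(a * X1) := by
      rw [hX1, sub_mul, mul_sub, Matrix.mul_assoc (a * X), haa, mul_one, Matrix.mul_assoc a X,
        haa', neg_sub]
    have b4 : JJ g * X1 ∈ h := by
      refine mem_of_two (hlie _ hn0 _ b1) (c := 2) (by norm_num) ?_
      have e1 : X1 * (JJ g * a) = JJ g * a * X1 := by
        rw [← Matrix.mul_assoc, b2.2, neg_mul, Matrix.mul_assoc, b3, mul_neg, neg_neg,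
          Matrix.mul_assoc]
      rw [hYa, add_mul, mul_add, neg_mul, mul_neg, e1, b2.2]
      module
    have := hreal X1 b2 b1 b4
    rw [hX1, sub_eq_zero] at this
    exact this.symm
  refine ⟨a, hJY, hap, haa, ?_, fun v => ?_⟩
  · intro X hX
    obtain ⟨Y', h1, h2, h3⟩ := hs' X hX
    have b1 := hE _ (J_mul_mem_pp h1) h2
    have b2 : a * Y' * a = -Y' := by
      rw [← Matrix.mul_assoc, hap.2, neg_mul, neg_mul, Matrix.mul_assoc, Matrix.mul_assoc] at b1
      have b3 := congrArg (fun Z => JJ g * Z) b1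
      simp only [mul_neg, JJ_mul, neg_neg] at b3
      rw [Matrix.mul_assoc, b3]
    have b4 := h.sub_mem (h.add_mem h3 h3) (hodd _ h3)
    convert b4 using 1
    rw [mul_sub, sub_mul, b2]
    abel
  · obtain ⟨Y', -, -, h3, h4⟩ := hs v
    exact ⟨_, h4⟩

end Lie

end Pool.Agent.MP_609e33_gt
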