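import Mathlib.Analysis.SpecialFunctions.Trigonometric.Deriv
import Mathlib.Analysis.CStarAlgebra.Classes
import Mathlib.Analysis.SpecialFunctions.Trigonometric.DerivHyp
import Mathlib.Analysis.Normed.Algebra.MatrixExponential
import Mathlib.Data.Matrix.ColumnRowPartitioned
import Mathlib.RingTheory.PiTensorProduct
import Pool.Agent.MP_609e33_gt.Alg

/-!
Linear algebra in the symplectic group: normal form of symmetric involutions, complex line
projections, the complex determinant, and explicit exponentials.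
-/

set_option autoImplicit false

open Matrix Module

namespace Pool.Agent.MP_609e33_gt

variable {g : ℕ}

/-- The standard symmetric involution. -/
def a0 (g : ℕ) : Mat g := fromBlocks 1 0 0 (-1)

lemma exists_frame {a : Mat g} (hp : a ∈ pp g) (haa : a * a = 1) :
    ∃ R : Matrix (Fin g ⊕ Fin g) (Fin g) ℝ, Rᵀ * R = 1 ∧ a * R = R := by
  let V := EuclideanSpace ℝ (Fin g ⊕ Fin g)
  let T : Mat g → V →ₗ[ℝ] V := fun A => Matrix.toLpLin 2 2 A
  have hT : ∀ (A : Mat g) (v : V), (T A v).ofLp = A *ᵥ v.ofLp := fun A v => rfl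
  let L : Submodule ℝ V := LinearMap.ker (T (a - 1))
  have hL : ∀ v : V, v ∈ L ↔ a *ᵥ v.ofLp = v.ofLp := by
    intro v
    rw [LinearMap.mem_ker, ← WithLp.ofLp_eq_zero 2, hT, sub_mulVec, one_mulVec, sub_eq_zero]
  have m1 : ∀ v : V, T (1 + a) v ∈ L := by
    intro v
    rw [hL, hT, mulVec_mulVec, mul_add, mul_one, haa, add_comm]
  have m2 : ∀ v : V, T (JJ g * (1 - a)) v ∈ L := by
    intro v
    rw [hL, hT, mulVec_mulVec, ← Matrix.mul_assoc, hp.2, neg_mul, Matrix.mul_assoc, mul_sub a,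
      mul_one, haa, ← mul_neg, neg_sub]
  have hinj : Function.Injective (((T (1 + a)).codRestrict L m1).prod
      ((T (JJ g * (1 - a))).codRestrict L m2)) := by
    rw [injective_iff_map_eq_zero]
    intro v hv
    have h1 : (1 + a) *ᵥ v.ofLp = 0 :=
      congrArg (fun w : L => w.1.ofLp) (congrArg Prod.fst hv)
    have h2 : (JJ g * (1 - a)) *ᵥ v.ofLp = 0 :=
      congrArg (fun w : L => w.1.ofLp) (congrArg Prod.snd hv)
    have h3 : (1 - a) *ᵥ v.ofLp = 0 := by
      have := congrArg (fun w => JJ g *ᵥ w) h2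
      simpa only [mulVec_mulVec, JJ_mul, neg_mulVec, mulVec_zero, neg_eq_zero] using this
    have h4 : (2 : ℝ) • v.ofLp = 0 := by
      rw [← add_zero (0 : Fin g ⊕ Fin g → ℝ)]
      nth_rewrite 1 [← h1]
      rw [← h3, add_mulVec, sub_mulVec, one_mulVec, two_smul]
      abel
    rw [← WithLp.ofLp_eq_zero 2]
    simpa using h4
  have hdim : g ≤ finrank ℝ L := by
    have := LinearMap.finrank_le_finrank_of_injective hinj
    rw [finrank_prod, finrank_euclideanSpace] at this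
    simp only [Fintype.card_sum, Fintype.card_fin] at this
    omega
  let b := stdOrthonormalBasis ℝ L
  refine ⟨Matrix.of fun i j => (b (Fin.castLE hdim j)).1.ofLp i, ?_, ?_⟩
  · ext i j
    have := orthonormal_iff_ite.mp b.orthonormal (Fin.castLE hdim j) (Fin.castLE hdim i)
    rw [Submodule.coe_inner, EuclideanSpace.inner_eq_star_dotProduct] at this
    simp only [star_trivial, Fin.castLE_inj] at this
    rw [mul_apply, one_apply]
    simp only [transpose_apply, of_apply, eq_comm (a := i)]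
    exact this
  · ext i j
    exact congrFun ((hL _).mp (b (Fin.castLE hdim j)).2) i

lemma exists_conj {a : Mat g} (hp : a ∈ pp g) (haa : a * a = 1) :
    ∃ B ∈ symplecticGroup (Fin g) ℝ, a * B = B * a0 g := by
  obtain ⟨R, h1, h2⟩ := exists_frame hp haa
  have h3 : a * (JJ g * R) = -(JJ g * R) := by
    rw [← Matrix.mul_assoc, hp.2, Matrix.neg_mul, Matrix.mul_assoc, h2]
  have h4 : Rᵀ * (JJ g * R) = 0 := by
    have e : Rᵀ * (JJ g * R) = -(Rᵀ * (JJ g * R)) := by
      conv_lhs => rw [← h2, transpose_mul, hp.1, Matrix.mul_assoc, h2, h3, Matrix.mul_neg]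
    have : (2 : ℝ) • (Rᵀ * (JJ g * R)) = 0 := by
      rw [two_smul]
      nth_rewrite 1 [e]
      rw [neg_add_cancel]
    simpa using this
  have h5 : JJ g * (JJ g * R) = -R := by
    rw [← Matrix.mul_assoc, JJ_sq, Matrix.neg_mul, Matrix.one_mul]
  refine ⟨fromCols R (JJ g * R), ?_, ?_⟩
  · rw [SymplecticGroup.mem_iff', Matrix.mul_assoc, mul_fromCols, transpose_fromCols,
      fromRows_mul_fromCols, h4, h5, transpose_mul, JJ_T]
    simp only [Matrix.mul_neg, Matrix.neg_mul, Matrix.mul_assoc, h1, h4, h5, neg_neg]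
    rfl
  · rw [mul_fromCols, h2, h3, a0, fromCols_mul_fromBlocks]
    simp

/-- The orthogonal projection onto the complex line of `v`. -/
noncomputable def Pv (v : Fin g ⊕ Fin g → ℝ) : Mat g :=
  (v ⬝ᵥ v)⁻¹ • (vecMulVec v v + vecMulVec (JJ g *ᵥ v) (JJ g *ᵥ v))

lemma dot_J (v w : Fin g ⊕ Fin g → ℝ) : (JJ g *ᵥ v) ⬝ᵥ w = -(v ⬝ᵥ (JJ g *ᵥ w)) := by
  rw [dotProduct_mulVec, ← mulVec_transpose, JJ_T, neg_mulVec, neg_dotProduct, neg_neg]

lemma J_J (v : Fin g ⊕ Fin g → ℝ) : JJ g *ᵥ (JJ g *ᵥ v) = -v := by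
  rw [mulVec_mulVec, JJ_sq, neg_mulVec, one_mulVec]

lemma dot_J_self (v : Fin g ⊕ Fin g → ℝ) : v ⬝ᵥ (JJ g *ᵥ v) = 0 := by
  have := dot_J v v
  rw [dotProduct_comm] at this
  linarith

lemma dot_J_J (v : Fin g ⊕ Fin g → ℝ) : (JJ g *ᵥ v) ⬝ᵥ (JJ g *ᵥ v) = v ⬝ᵥ v := by
  rw [dot_J, J_J, dotProduct_neg, neg_neg]

lemma Pv_T (v : Fin g ⊕ Fin g → ℝ) : (Pv v)ᵀ = Pv v := by
  rw [Pv, transpose_smul, transpose_add, transpose_vecMulVec, transpose_vecMulVec]

lemma Pv_J (v : Fin g ⊕ Fin g → ℝ) : JJ g * Pv v = Pv v * JJ g := by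
  have e : ∀ w : Fin g ⊕ Fin g → ℝ, w ᵥ* JJ g = -(JJ g *ᵥ w) := fun w => by
    rw [← mulVec_transpose, JJ_T, neg_mulVec]
  rw [Pv, mul_smul_comm, smul_mul_assoc, mul_add, add_mul, mul_vecMulVec, mul_vecMulVec,
    vecMulVec_mul, vecMulVec_mul, e, e, J_J, neg_neg, neg_vecMulVec, vecMulVec_neg, add_comm]

lemma mul_Pv {P : Mat g} (hJ : JJ g * P = P * JJ g) {v : Fin g ⊕ Fin g → ℝ} (hv : P *ᵥ v = v) :
    P * Pv v = Pv v := by
  rw [Pv, mul_smul_comm, mul_add, mul_vecMulVec, mul_vecMulVec, hv, mulVec_mulVec, ← hJ,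
    ← mulVec_mulVec, hv]

lemma dot_pos {v : Fin g ⊕ Fin g → ℝ} (hv : v ≠ 0) : v ⬝ᵥ v ≠ 0 := fun h =>
  hv (dotProduct_self_eq_zero.mp h)

lemma Pv_mulVec {v : Fin g ⊕ Fin g → ℝ} (hv : v ≠ 0) : Pv v *ᵥ v = v := by
  rw [Pv, smul_mulVec, add_mulVec, vecMulVec_mulVec, vecMulVec_mulVec, dot_J, dot_J_self]
  simp [smul_smul, dot_pos hv]

lemma Pv_Pv {v : Fin g ⊕ Fin g → ℝ} (hv : v ≠ 0) : Pv v * Pv v = Pv v :=
  mul_Pv (Pv_J v) (Pv_mulVec hv)

lemma trace_Pv {v : Fin g ⊕ Fin g → ℝ} (hv : v ≠ 0) : trace (Pv v) = 2 := by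
  rw [Pv, trace_smul, trace_add, trace_vecMulVec, trace_vecMulVec, dot_J_J, smul_eq_mul]
  field_simp [dot_pos hv]
  norm_num

lemma trace_nonneg {P : Mat g} (h1 : Pᵀ = P) (h2 : P * P = P) : 0 ≤ trace P := by
  rw [← h2]
  nth_rewrite 1 [← h1]
  refine Finset.sum_nonneg fun i _ => ?_
  rw [diag_apply, mul_apply]
  exact Finset.sum_nonneg fun j _ => mul_self_nonneg _

lemma continuousOn_Pv : ContinuousOn (Pv (g := g)) {0}ᶜ := by
  refine ContinuousOn.smul (ContinuousOn.inv₀ (by fun_prop) fun v hv => dot_pos hv) ?_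
  refine Continuous.continuousOn (continuous_matrix fun i j => ?_)
  simp only [Matrix.add_apply, vecMulVec_apply]
  fun_prop

/-- The complex determinant of the complex-linear part. -/
noncomputable def χ (A : Mat g) : ℂ :=
  det (Matrix.of fun i j : Fin g => (⟨A (.inl i) (.inl j) + A (.inr i) (.inr j),
    A (.inr i) (.inl j) - A (.inl i) (.inr j)⟩ : ℂ))

lemma continuous_χ : Continuous (χ (g := g)) := by
  refine Continuous.matrix_det (continuous_matrix fun i j => ?_)
  simp only [of_apply, Complex.mk_eq_add_mul_I]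
  fun_prop

lemma χ_ne_zero {A : Mat g} (hA : A ∈ symplecticGroup (Fin g) ℝ) : χ A ≠ 0 := by
  intro h
  obtain ⟨w, hw, h0⟩ := Matrix.exists_mulVec_eq_zero_iff.mpr h
  set x : Fin g ⊕ Fin g → ℝ := Sum.elim (fun i => (w i).re) fun i => (w i).im with hx
  have hx0 : x ≠ 0 := by
    intro h1
    apply hw
    funext i
    exact Complex.ext (congrFun h1 (.inl i)) (congrFun h1 (.inr i))
  have hJ : ∀ y : Fin g ⊕ Fin g → ℝ, JJ g *ᵥ y =
      Sum.elim (fun i => -y (.inr i)) fun i => y (.inl i) := by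
    intro y
    rw [JJ, Matrix.J, fromBlocks_mulVec]
    simp [neg_mulVec]
    rfl
  have h1 : A *ᵥ x = JJ g *ᵥ (A *ᵥ (JJ g *ᵥ x)) := by
    rw [hJ, hJ]
    funext i
    rcases i with i | i
    · have := congrArg Complex.re (congrFun h0 i)
      simp only [mulVec, dotProduct, of_apply, Complex.re_sum, Complex.mul_re, Pi.zero_apply,
        Complex.zero_re, add_mul, sub_mul, Finset.sum_sub_distrib,
        Finset.sum_add_distrib] at this
      simp only [mulVec, dotProduct, Fintype.sum_sum_type, hx, Sum.elim_inl, Sum.elim_inr,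
        mul_neg, Finset.sum_neg_distrib]
      linarith
    · have := congrArg Complex.im (congrFun h0 i)
      simp only [mulVec, dotProduct, of_apply, Complex.im_sum, Complex.mul_im, Pi.zero_apply,
        Complex.zero_im, add_mul, sub_mul, Finset.sum_sub_distrib,
        Finset.sum_add_distrib] at this
      simp only [mulVec, dotProduct, Fintype.sum_sum_type, hx, Sum.elim_inl, Sum.elim_inr,
        mul_neg, Finset.sum_neg_distrib]
      linarith
  have h2 : (A *ᵥ x) ⬝ᵥ (JJ g *ᵥ (A *ᵥ (JJ g *ᵥ x))) = -(x ⬝ᵥ x) := by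
    rw [dotProduct_comm, dotProduct_mulVec, ← mulVec_transpose, mulVec_mulVec, mulVec_mulVec,
      SymplecticGroup.mem_iff'.mp hA, J_J, neg_dotProduct]
  rw [← h1] at h2
  have h3 : 0 ≤ (A *ᵥ x) ⬝ᵥ (A *ᵥ x) := Finset.sum_nonneg fun i _ => mul_self_nonneg _
  have h4 : 0 ≤ x ⬝ᵥ x := Finset.sum_nonneg fun i _ => mul_self_nonneg _
  exact dot_pos hx0 (by linarith)

lemma χ_rot (t : ℝ) : χ (Real.cos t • (1 : Mat g) + Real.sin t • JJ g) =
    Complex.exp (g * (Real.log 2 + t * Complex.I)) := by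
  have : (Matrix.of fun i j : Fin g =>
      (⟨(Real.cos t • (1 : Mat g) + Real.sin t • JJ g) (.inl i) (.inl j) +
        (Real.cos t • (1 : Mat g) + Real.sin t • JJ g) (.inr i) (.inr j),
        (Real.cos t • (1 : Mat g) + Real.sin t • JJ g) (.inr i) (.inl j) -
        (Real.cos t • (1 : Mat g) + Real.sin t • JJ g) (.inl i) (.inr j)⟩ : ℂ)) =
      Complex.exp (Real.log 2 + t * Complex.I) • (1 : Matrix (Fin g) (Fin g) ℂ) := by
    ext i j
    rw [Complex.exp_add, ← Complex.ofReal_exp, Real.exp_log two_pos, Complex.exp_mul_I,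
      ← Complex.ofReal_cos, ← Complex.ofReal_sin]
    by_cases hij : i = j
    · subst hij
      apply Complex.ext <;>
        simp [Matrix.J, -Complex.ofReal_cos, -Complex.ofReal_sin] <;> ring
    · apply Complex.ext <;> simp [Matrix.J, hij, one_apply]
  rw [χ, this, det_smul, det_one, mul_one, Fintype.card_fin, Complex.exp_nat_mul]

section Exp

open NormedSpace

attribute [local instance] Matrix.linftyOpNormedRing Matrix.linftyOpNormedAlgebra

lemma exp_neg_mul (X : Mat g) : exp (-X) * exp X = 1 := by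
  rw [← Matrix.exp_add_of_commute _ _ (Commute.refl X).neg_left, neg_add_cancel, exp_zero]

lemma exp_mul_neg (X : Mat g) : exp X * exp (-X) = 1 := by
  rw [← Matrix.exp_add_of_commute _ _ (Commute.refl X).neg_right, add_neg_cancel, exp_zero]

lemma exp_mem {X : Mat g} (hX : X ∈ sp g) : exp X ∈ symplecticGroup (Fin g) ℝ := by
  have hu : IsUnit (JJ g) := (Matrix.isUnit_iff_isUnit_det _).mpr (Matrix.isUnit_det_J _ _)
  have h1 : Xᵀ = JJ g * (-X) * (JJ g)⁻¹ := by
    rw [mul_neg, ← mem_sp.mp hX, Matrix.mul_assoc,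
      Matrix.mul_nonsing_inv _ (Matrix.isUnit_det_J _ _), mul_one]
  rw [SymplecticGroup.mem_iff', ← Matrix.exp_transpose, h1, Matrix.exp_conj _ _ hu,
    Matrix.mul_assoc (JJ g * exp (-X)), Matrix.nonsing_inv_mul _ (Matrix.isUnit_det_J _ _),
    mul_one, Matrix.mul_assoc, exp_neg_mul, mul_one]

lemma exp_eq_of_deriv {X : Mat g} {f : ℝ → Mat g} (h0 : f 0 = 1)
    (hf : ∀ t, HasDerivAt f (X * f t) t) (t : ℝ) : exp (t • X) = f t := by
  have h1 : ∀ s : ℝ, HasDerivAt (fun s : ℝ => exp (s • (-X)) * f s) 0 s := by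
    intro s
    refine ((hasDerivAt_exp_smul_const (-X) s).mul (hf s)).congr_deriv ?_
    rw [mul_neg, neg_mul, Matrix.mul_assoc, neg_add_cancel]
  have h2 := is_const_of_deriv_eq_zero (fun s => (h1 s).differentiableAt)
    (fun s => (h1 s).deriv) t 0
  simp only [zero_smul, neg_zero, exp_zero, h0, mul_one, smul_neg] at h2
  rw [← mul_one (exp (t • X)), ← h2, ← Matrix.mul_assoc, exp_mul_neg, one_mul]

lemma exp_rot {P : Mat g} (h2 : P * P = P) (hJ : JJ g * P = P * JJ g) (t : ℝ) :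
    exp (t • (JJ g * P)) = 1 - P + Real.cos t • P + Real.sin t • (JJ g * P) := by
  refine exp_eq_of_deriv (f := fun t => 1 - P + Real.cos t • P + Real.sin t • (JJ g * P))
    (by simp) (fun t => ?_) t
  refine ((((Real.hasDerivAt_cos t).smul_const P).const_add (1 - P)).add
    ((Real.hasDerivAt_sin t).smul_const (JJ g * P))).congr_deriv ?_
  have e1 : JJ g * P * P = JJ g * P := by rw [Matrix.mul_assoc, h2]
  have e2 : JJ g * P * (JJ g * P) = -P := by
    rw [Matrix.mul_assoc, ← Matrix.mul_assoc P, ← hJ, e1, JJ_mul]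
  rw [mul_add, mul_add, mul_sub, mul_smul_comm, mul_smul_comm, e1, e2, mul_one]
  module

lemma exp_inv {a : Mat g} (haa : a * a = 1) (t : ℝ) :
    exp (t • a) = Real.cosh t • (1 : Mat g) + Real.sinh t • a := by
  refine exp_eq_of_deriv (f := fun t => Real.cosh t • (1 : Mat g) + Real.sinh t • a)
    (by simp) (fun t => ?_) t
  refine (((Real.hasDerivAt_cosh t).smul_const (1 : Mat g)).add
    ((Real.hasDerivAt_sinh t).smul_const a)).congr_deriv ?_
  rw [mul_add, mul_smul_comm, mul_smul_comm, haa, mul_one, add_comm]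

lemma hasDerivAt_conj (X Y : Mat g) :
    HasDerivAt (fun t : ℝ => exp (t • X) * Y * exp (t • (-X))) (X * Y - Y * X) 0 := by
  refine (((hasDerivAt_exp_smul_const X (0 : ℝ)).mul_const Y).mul
    (hasDerivAt_exp_smul_const (-X) (0 : ℝ))).congr_deriv ?_
  simp [sub_eq_add_neg]

end Exp

end Pool.Agent.MP_609e33_gt
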