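import Mathlib.Algebra.Order.Archimedean.Real.Hom
import Mathlib.Analysis.Normed.Module.Connected
import Mathlib.Analysis.Complex.CoveringMap
import Mathlib.Topology.Homotopy.Lifting
import Mathlib.Geometry.Manifold.GroupLieAlgebra
import Mathlib.Geometry.Manifold.IntegralCurve.ExistUnique
import Mathlib.Geometry.Manifold.Sheaf.Basic
import Mathlib.Order.CompletePartialOrder
import Pool.Agent.MP_609e33_gt.Lin

-- ======== part 0: formerly Pool.Agent.MP_609e33_gt.Cover
section MrgPart0

/-!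
The exponential map of a covering group of the symplectic group and its centre.
-/

set_option autoImplicit false

open Matrix Module NormedSpace

namespace Pool.Agent.MP_609e33_gt

variable {g : ℕ}

attribute [local instance] Matrix.linftyOpNormedRing Matrix.linftyOpNormedAlgebra

/-- The symplectic group. -/
abbrev Sp (g : ℕ) : Type := symplecticGroup (Fin g) ℝ

lemma coe_mul_inv (A : Sp g) : (A : Mat g) * ((A⁻¹ : Sp g) : Mat g) = 1 :=
  congrArg Subtype.val (mul_inv_cancel A)

lemma coe_inv_mul (A : Sp g) : ((A⁻¹ : Sp g) : Mat g) * (A : Mat g) = 1 :=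
  congrArg Subtype.val (inv_mul_cancel A)

/-- The adjoint action. -/
noncomputable def Ad (A : Sp g) : sp g →ₗ[ℝ] sp g where
  toFun X := ⟨(A : Mat g) * X.1 * ((A⁻¹ : Sp g) : Mat g), by
    have h1 : (A : Mat g)ᵀ * JJ g = JJ g * ((A⁻¹ : Sp g) : Mat g) := by
      rw [← mul_one ((A : Mat g)ᵀ * JJ g), ← coe_mul_inv A, ← Matrix.mul_assoc,
        SymplecticGroup.mem_iff'.mp A.2]
    have h2 : ((A⁻¹ : Sp g) : Mat g)ᵀ * JJ g = JJ g * (A : Mat g) := by
      rw [← mul_one (((A⁻¹ : Sp g) : Mat g)ᵀ * JJ g), ← coe_inv_mul A, ← Matrix.mul_assoc,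
        SymplecticGroup.mem_iff'.mp A⁻¹.2]
    rw [mem_sp, transpose_mul, transpose_mul, Matrix.mul_assoc, Matrix.mul_assoc, h1,
      ← Matrix.mul_assoc X.1ᵀ, mem_sp.mp X.2, neg_mul, mul_neg, Matrix.mul_assoc,
      ← Matrix.mul_assoc _ (JJ g), h2]
    simp only [Matrix.mul_assoc]⟩
  map_add' X Y := Subtype.ext (by simp [mul_add, add_mul])
  map_smul' c X := Subtype.ext (by simp)

lemma coe_Ad (A : Sp g) (X : sp g) :
    (Ad A X).1 = (A : Mat g) * X.1 * ((A⁻¹ : Sp g) : Mat g) := rfl

lemma Ad_Ad_inv (A : Sp g) (X : sp g) : Ad A (Ad A⁻¹ X) = X := by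
  apply Subtype.ext
  rw [coe_Ad, coe_Ad, inv_inv, ← Matrix.mul_assoc, ← Matrix.mul_assoc, coe_mul_inv, one_mul,
    Matrix.mul_assoc, coe_mul_inv, mul_one]

lemma exp_Ad (A : Sp g) (X : sp g) :
    exp (Ad A X).1 = (A : Mat g) * exp X.1 * ((A⁻¹ : Sp g) : Mat g) := by
  rw [coe_Ad, SymplecticGroup.coe_inv', Matrix.exp_conj _ _
    ((Matrix.isUnit_iff_isUnit_det _).mpr (SymplecticGroup.symplectic_det A.2))]

variable {G : Type*} [Group G] [TopologicalSpace G]

/-- The lift of the exponential map. -/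
structure ExpLift (π : G →* Sp g) where
  cov : IsCoveringMap π
  e : sp g → G
  cont : Continuous e
  zero : e 0 = 1
  lifts : ∀ X, (π (e X) : Mat g) = exp X.1

lemma exists_expLift {π : G →* Sp g} (hπ : IsCoveringMap π) : Nonempty (ExpLift π) := by
  have hc : Continuous fun X : sp g => (⟨exp X.1, exp_mem X.2⟩ : Sp g) :=
    Continuous.subtype_mk (exp_continuous.comp continuous_subtype_val) _
  have : LocallyConvexSpace ℝ (sp g) := NormedSpace.toLocallyConvexSpace
  obtain ⟨F, ⟨h1, h2⟩, -⟩ := hπ.existsUnique_continuousMap_lifts ⟨_, hc⟩ 0 1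
    (Subtype.ext (by simp))
  exact ⟨⟨hπ, F, F.continuous, h1, fun X => congrArg Subtype.val (congrFun h2 X)⟩⟩

/-- The generator `J P` of the rotation in the range of `P`. -/
noncomputable def rot (P : Mat g) (h1 : Pᵀ = P) (h2 : JJ g * P = P * JJ g) : sp g :=
  ⟨JJ g * P, J_mul_mem_sp h1 h2⟩

namespace ExpLift

variable [IsTopologicalGroup G] {π : G →* Sp g} (L : ExpLift π)

lemma e_add (X Y : sp g) (h : Commute X.1 Y.1) : L.e (X + Y) = L.e X * L.e Y := by
  have hc := L.cont
  have := L.cov.eq_of_comp_eq (g₁ := fun t : ℝ => L.e (t • (X + Y)))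
    (g₂ := fun t : ℝ => L.e (t • X) * L.e (t • Y)) (by fun_prop) (by fun_prop) (by
      funext t
      apply Subtype.ext
      simp only [Function.comp_apply, map_mul, Submonoid.coe_mul, L.lifts, smul_add,
        Submodule.coe_add, Submodule.coe_smul]
      exact Matrix.exp_add_of_commute _ _ ((h.smul_left t).smul_right t)) 0
    (by simp [L.zero])
  simpa using congrFun this 1

lemma e_add_smul (X : sp g) (s t : ℝ) : L.e ((s + t) • X) = L.e (s • X) * L.e (t • X) := by
  rw [add_smul, L.e_add]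
  exact ((Commute.refl X.1).smul_left s).smul_right t

lemma e_nsmul (X : sp g) (n : ℕ) : L.e ((n : ℝ) • X) = L.e X ^ n := by
  induction n with
  | zero => simp [L.zero]
  | succ n ih => rw [Nat.cast_succ, L.e_add_smul, ih, one_smul, pow_succ]

lemma conj (a : G) (X : sp g) : a * L.e X * a⁻¹ = L.e (Ad (π a) X) := by
  have hc := L.cont
  have hA : Continuous (Ad (π a)) := LinearMap.continuous_of_finiteDimensional _
  have := L.cov.eq_of_comp_eq (g₁ := fun X : sp g => a * L.e X * a⁻¹)
    (g₂ := fun X : sp g => L.e (Ad (π a) X)) (by fun_prop) (by fun_prop) (by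
      funext X
      apply Subtype.ext
      simp only [Function.comp_apply, map_mul, map_inv, Submonoid.coe_mul, L.lifts, exp_Ad]) 0
    (by simp [L.zero])
  exact congrFun this X

include L in
lemma central [PreconnectedSpace G] {z : G} (hz : π z = 1) (a : G) : a * z = z * a := by
  have := L.cov.const_of_comp (g := fun a : G => a * z * a⁻¹) (by fun_prop)
    (fun a a' => by simp [hz]) a 1
  simp only [one_mul, inv_one, mul_one] at this
  rw [mul_inv_eq_iff_eq_mul.mp this]

omit [IsTopologicalGroup G] in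
lemma π_rot {P : Mat g} (h1 : Pᵀ = P) (h2 : JJ g * P = P * JJ g) (h3 : P * P = P) :
    π (L.e ((2 * Real.pi) • rot P h1 h2)) = 1 := by
  apply Subtype.ext
  rw [L.lifts]
  change exp ((2 * Real.pi) • (JJ g * P)) = 1
  rw [exp_rot h3 h2]
  simp

lemma exists_z0 (hg : 1 ≤ g) : ∃ z : G, π z = 1 ∧ ∀ (P : Mat g) (h1 : Pᵀ = P)
    (h2 : JJ g * P = P * JJ g), P * P = P →
      ∃ m ≤ 2 * g, (P ≠ 0 → 1 ≤ m) ∧ L.e ((2 * Real.pi) • rot P h1 h2) = z ^ m := by
  have hc := L.cont
  let ζ : (Fin g ⊕ Fin g → ℝ) → G := fun v => L.e ((2 * Real.pi) • rot (Pv v) (Pv_T v) (Pv_J v))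
  have hζ : ∀ v ≠ 0, π (ζ v) = 1 := fun v hv => L.π_rot _ _ (Pv_Pv hv)
  have hcon : IsPreconnected ({0}ᶜ : Set (Fin g ⊕ Fin g → ℝ)) := by
    refine (isConnected_compl_singleton_of_one_lt_rank ?_ 0).isPreconnected
    rw [rank_fun', Fintype.card_sum, Fintype.card_fin]
    exact_mod_cast (by omega : 1 < g + g)
  have hcont : ContinuousOn ζ {0}ᶜ := by
    have h0 : ContinuousOn (fun v : Fin g ⊕ Fin g → ℝ => rot (Pv v) (Pv_T v) (Pv_J v)) {0}ᶜ := by
      rw [Topology.IsInducing.subtypeVal.continuousOn_iff]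
      exact continuousOn_const.mul continuousOn_Pv
    exact hc.comp_continuousOn (h0.const_smul (2 * Real.pi))
  have hv0 : (fun _ => 1 : Fin g ⊕ Fin g → ℝ) ≠ 0 := fun h =>
    one_ne_zero (congrFun h (.inl ⟨0, hg⟩))
  have hconst : ∀ v ≠ 0, ζ v = ζ fun _ => 1 := fun v hv =>
    L.cov.constOn_of_comp hcon hcont (fun a ha a' ha' => by rw [hζ a ha, hζ a' ha']) hv hv0
  refine ⟨ζ fun _ => 1, hζ _ hv0, ?_⟩
  have key : ∀ (n : ℕ) (P : Mat g) (h1 : Pᵀ = P) (h2 : JJ g * P = P * JJ g), P * P = P →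
      trace P ≤ n → ∃ m ≤ n, (P ≠ 0 → 1 ≤ m) ∧
        L.e ((2 * Real.pi) • rot P h1 h2) = (ζ fun _ => 1) ^ m := by
    intro n
    induction n using Nat.strong_induction_on with
    | _ n ih =>
      intro P h1 h2 h3 h4
      by_cases hP : P = 0
      · refine ⟨0, Nat.zero_le _, fun h => (h hP).elim, ?_⟩
        have : rot P h1 h2 = 0 := Subtype.ext (by simp [rot, hP])
        rw [this, smul_zero, L.zero, pow_zero]
      · obtain ⟨w, hw⟩ : ∃ w, P *ᵥ w ≠ 0 := by
          by_contra hcon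
          push Not at hcon
          exact hP (Matrix.ext_iff_mulVec.mpr fun w => by rw [hcon, zero_mulVec])
        set v := P *ᵥ w with hv
        have hPv : P *ᵥ v = v := by rw [hv, mulVec_mulVec, h3]
        have a1 : P * Pv v = Pv v := mul_Pv h2 hPv
        have a2 : Pv v * P = Pv v := by
          have := congrArg transpose a1
          rwa [transpose_mul, Pv_T, h1] at this
        have b1 : (P - Pv v)ᵀ = P - Pv v := by rw [transpose_sub, h1, Pv_T]
        have b2 : JJ g * (P - Pv v) = (P - Pv v) * JJ g := by rw [mul_sub, sub_mul, h2, Pv_J]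
        have b3 : (P - Pv v) * (P - Pv v) = P - Pv v := by
          rw [mul_sub, sub_mul, sub_mul, h3, a1, a2, Pv_Pv hw, sub_self, sub_zero]
        have b4 := trace_nonneg b1 b3
        rw [trace_sub, trace_Pv hw] at b4
        have hn : 2 ≤ n := by exact_mod_cast (by linarith : (2 : ℝ) ≤ n)
        obtain ⟨m, hm, -, hm'⟩ := ih (n - 1) (by omega) _ b1 b2 b3 (by
          rw [trace_sub, trace_Pv hw, Nat.cast_sub (by omega)]
          push_cast
          linarith)
        refine ⟨m + 1, by omega, fun _ => by omega, ?_⟩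
        have e1 : rot P h1 h2 = rot (P - Pv v) b1 b2 + rot (Pv v) (Pv_T v) (Pv_J v) :=
          Subtype.ext (by simp [rot, mul_sub])
        rw [e1, smul_add, L.e_add, hm', pow_succ, ← hconst v hw]
        refine (Commute.smul_left ?_ _).smul_right _
        have c1 : (P - Pv v) * Pv v = 0 := by rw [sub_mul, a1, Pv_Pv hw, sub_self]
        have c2 : Pv v * (P - Pv v) = 0 := by rw [mul_sub, a2, Pv_Pv hw, sub_self]
        change JJ g * (P - Pv v) * (JJ g * Pv v) = JJ g * Pv v * (JJ g * (P - Pv v))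
        rw [Matrix.mul_assoc, ← Matrix.mul_assoc (P - Pv v), ← b2, Matrix.mul_assoc, c1,
          Matrix.mul_assoc, ← Matrix.mul_assoc (Pv v), ← Pv_J, Matrix.mul_assoc, c2]
  intro P h1 h2 h3
  refine key (2 * g) P h1 h2 h3 ?_
  have := trace_nonneg (P := 1 - P) (by rw [transpose_sub, h1, transpose_one])
    (by rw [mul_sub, sub_mul, sub_mul, h3]; simp)
  rw [trace_sub, trace_one] at this
  simp only [Fintype.card_sum, Fintype.card_fin] at this
  push_cast at this ⊢
  linarith

omit [IsTopologicalGroup G] in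
lemma ne_one [SimplyConnectedSpace G] (hg : 1 ≤ g) {T : ℝ} (hT : T ≠ 0) :
    L.e (T • rot 1 (by simp) (by simp)) ≠ 1 := by
  intro h
  have hc := L.cont
  set X : sp g := rot 1 (by simp) (by simp) with hX
  let γ : Path (1 : G) 1 :=
    { toFun := fun s => L.e (((s : ℝ) * T) • X)
      continuous_toFun := by fun_prop
      source' := by simp [L.zero]
      target' := by simpa using h }
  let f : C(G, {z : ℂ // z ≠ 0}) := ⟨fun a => ⟨χ (π a : Mat g), χ_ne_zero (π a).2⟩,
    Continuous.subtype_mk (continuous_χ.comp (continuous_subtype_val.comp L.cov.continuous)) _⟩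
  have hom : (f.comp γ.toContinuousMap).HomotopicRel (f.comp (Path.refl (1 : G)).toContinuousMap)
      {0, 1} := ContinuousMap.HomotopicRel.comp_continuousMap
        (SimplyConnectedSpace.paths_homotopic γ (Path.refl 1)) f
  have hval : ∀ t : ℝ, χ (π (L.e (t • X)) : Mat g) =
      Complex.exp (g * (Real.log 2 + t * Complex.I)) := by
    intro t
    rw [L.lifts, ← χ_rot]
    change χ (exp (t • (JJ g * 1))) = _
    rw [exp_rot (by simp) (by simp)]
    simp
  have h0 : f 1 = ⟨_, Complex.exp_ne_zero (g * Real.log 2)⟩ := by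
    apply Subtype.ext
    have := hval 0
    change χ (π 1 : Mat g) = _
    simpa [L.zero] using this
  have cov := Complex.isCoveringMap_exp
  have h1 := cov.liftPath_apply_one_eq_of_homotopicRel hom (g * Real.log 2)
    (by simpa using h0) (by simpa using h0)
  have k1 := (cov.eq_liftPath_iff' (γ := f.comp γ.toContinuousMap) (e := g * Real.log 2)
    (by simpa using h0) (Γ := ⟨fun s => g * (Real.log 2 + ((s : ℝ) * T : ℝ) * Complex.I),
      by fun_prop⟩)).mpr ⟨funext fun s => Subtype.ext (hval ((s : ℝ) * T)).symm, by simp⟩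
  have k2 := (cov.eq_liftPath_iff' (γ := f.comp (Path.refl (1 : G)).toContinuousMap)
    (e := g * Real.log 2) (by simpa using h0)
    (Γ := ContinuousMap.const _ ((g : ℂ) * Real.log 2))).mpr ⟨funext fun s => h0.symm, rfl⟩
  rw [← k1, ← k2] at h1
  have h2 := congrArg Complex.im h1
  simp at h2
  rcases h2 with h2 | h2
  · exact hT h2
  · omega

end ExpLift

end Pool.Agent.MP_609e33_gt

end MrgPart0

-- ======== part 1: formerly Pool.Agent.MP_609e33_gt.Act
section MrgPart1

/-!
Actions of class `C¹` of a covering group of the symplectic group in small dimension.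
-/

set_option autoImplicit false

open Matrix Module NormedSpace Filter Topology Manifold

namespace Pool.Agent.MP_609e33_gt

variable {g : ℕ}

attribute [local instance] Matrix.linftyOpNormedRing Matrix.linftyOpNormedAlgebra

section Fixed

variable {E : Type} [NormedAddCommGroup E] [NormedSpace ℝ E]
  {M : Type*} [TopologicalSpace M] [ChartedSpace E M]

/-- A self map read in the charts at `y` and `y'`. -/
noncomputable def loc (E : Type) [TopologicalSpace E] {M : Type*} [TopologicalSpace M]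
    [ChartedSpace E M] (f : M → M) (y y' : M) : E → E :=
  fun v => chartAt E y' (f ((chartAt E y).symm v))

lemma contDiffAt_loc [IsManifold 𝓘(ℝ, E) 1 M] {f : M → M}
    (hf : ContMDiff 𝓘(ℝ, E) 𝓘(ℝ, E) 1 f) {x y y' : M}
    (hx : x ∈ (chartAt E y).source) (hx' : f x ∈ (chartAt E y').source) :
    ContDiffAt ℝ 1 (loc E f y y') (chartAt E y x) := by
  rw [← contMDiffAt_iff_contDiffAt]
  have h1 : ContMDiffAt 𝓘(ℝ, E) 𝓘(ℝ, E) 1 (chartAt E y).symm (chartAt E y x) :=
    contMDiffOn_chart_symm.contMDiffAt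
      ((chartAt E y).open_target.mem_nhds ((chartAt E y).map_source hx))
  have h2 : ContMDiffAt 𝓘(ℝ, E) 𝓘(ℝ, E) 1 (chartAt E y')
      (f ((chartAt E y).symm (chartAt E y x))) := by
    rw [(chartAt E y).left_inv hx]
    exact contMDiffOn_chart.contMDiffAt ((chartAt E y').open_source.mem_nhds hx')
  exact h2.comp (chartAt E y x) ((hf _).comp (chartAt E y x) h1)

lemma finite_fixed [FiniteDimensional ℝ E] [IsManifold 𝓘(ℝ, E) 1 M] [T2Space M] [CompactSpace M]
    {f : M → M} (hf : ContMDiff 𝓘(ℝ, E) 𝓘(ℝ, E) 1 f) {S : Set M} {c : ℝ} (hc : c ≠ 1)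
    (hS : ∀ x ∈ S, f x = x)
    (hD : ∀ x ∈ S, ∀ y, x ∈ (chartAt E y).source → ∀ w,
      fderiv ℝ (loc E f y y) (chartAt E y x) (fderiv ℝ (loc E f y y) (chartAt E y x) w) + w =
        (2 * c) • fderiv ℝ (loc E f y y) (chartAt E y x) w) : S.Finite := by
  by_contra hinf
  obtain ⟨y, hy⟩ := Set.Infinite.exists_accPt_principal hinf
  rw [accPt_iff_frequently] at hy
  have hy0 := mem_chart_source E y
  have hfy : f y = y := (isClosed_eq hf.continuous continuous_id).mem_of_frequently_of_tendsto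
    (hy.mono fun x hx => hS x hx.2) tendsto_id
  have hF := contDiffAt_loc hf hy0 (y' := y) (by rwa [hfy])
  have hφ : ContinuousAt (chartAt E y) y := (chartAt E y).continuousAt hy0
  have hsrc : ∀ᶠ x in 𝓝 y, x ∈ (chartAt E y).source := (chartAt E y).open_source.mem_nhds hy0
  have hc' : ContinuousAt (fun x => fderiv ℝ (loc E f y y) (chartAt E y x)) y :=
    ContinuousAt.comp (hF.fderiv_right (m := 0) (by simp)).continuousAt hφ
  set D := fderiv ℝ (loc E f y y) (chartAt E y y) with hDdef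
  have hpoly : ∀ w, D (D w) + w = (2 * c) • D w := by
    intro w
    have hcl : IsClosed {A : E →L[ℝ] E | A (A w) + w = (2 * c) • A w} :=
      isClosed_eq (by fun_prop) (by fun_prop)
    exact hcl.mem_of_frequently_of_tendsto
      ((hy.and_eventually hsrc).mono fun x hx => hD x hx.1.2 y hx.2 w) hc'
  have hinj : LinearMap.ker (D - ContinuousLinearMap.id ℝ E : E →L[ℝ] E).toLinearMap = ⊥ := by
    rw [LinearMap.ker_eq_bot']
    intro w hw
    have h1 : D w = w := sub_eq_zero.mp hw
    have h2 := hpoly w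
    rw [h1, h1] at h2
    have h3 : (2 * c - 2) • w = 0 := by rw [sub_smul, ← h2, two_smul, sub_self]
    exact (smul_eq_zero.mp h3).resolve_left (by intro h; apply hc; linarith)
  obtain ⟨K, -, hK⟩ := LinearMap.exists_antilipschitzWith _ hinj
  have hne := ((hF.differentiableAt (by simp)).hasFDerivAt.sub
    (hasFDerivAt_id (chartAt E y y))).eventually_ne (c := 0) ⟨K, hK⟩
  rw [eventually_nhdsWithin_iff] at hne
  obtain ⟨x, ⟨hx1, hx2⟩, hx3, hx4⟩ := (hy.and_eventually (hsrc.and (hφ.eventually hne))).exists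
  refine hx4 (fun h => hx1 ((chartAt E y).injOn hx3 hy0 h)) ?_
  simp only [Pi.sub_apply, loc, id]
  rw [(chartAt E y).left_inv hx3, hS x hx2, sub_self]

end Fixed

variable {G : Type*} [Group G] [TopologicalSpace G] [IsTopologicalGroup G] {π : G →* Sp g}
  {E : Type} [NormedAddCommGroup E] [NormedSpace ℝ E] [FiniteDimensional ℝ E]
  {M : Type*} [TopologicalSpace M] [ChartedSpace E M] [IsManifold 𝓘(ℝ, E) 1 M] [MulAction G M]

/-- The regularity of the action used in the proof. -/
structure Act (L : ExpLift π) (E : Type) [NormedAddCommGroup E] [NormedSpace ℝ E]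
    (M : Type*) [TopologicalSpace M] [ChartedSpace E M] [MulAction G M] : Prop where
  sm : ∀ a : G, ContMDiff 𝓘(ℝ, E) 𝓘(ℝ, E) 1 fun x : M => a • x
  ce : ∀ x : M, Continuous fun X => L.e X • x
  se : ∀ x y : M, x ∈ (chartAt E y).source →
    DifferentiableAt ℝ (fun X => chartAt E y (L.e X • x)) 0

/-- The infinitesimal action at `x` read in the chart at `y`. -/
noncomputable def ev (L : ExpLift π) (E : Type) [NormedAddCommGroup E] [NormedSpace ℝ E]
    {M : Type*} [TopologicalSpace M] [ChartedSpace E M] [MulAction G M] (y x : M) :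
    sp g →L[ℝ] E :=
  fderiv ℝ (fun X => chartAt E y (L.e X • x)) 0

/-- The one parameter group of `X` fixes `x`. -/
def Fix (L : ExpLift π) {M : Type*} [MulAction G M] (x : M) (X : sp g) : Prop :=
  ∀ t : ℝ, L.e (t • X) • x = x

variable {L : ExpLift π}

omit [TopologicalSpace M] in
lemma Fix.conj {x : M} {X : sp g} (h : Fix L x X) (a : G) : Fix L (a • x) (Ad (π a) X) := by
  intro t
  rw [← map_smul, ← L.conj, mul_smul, mul_smul, inv_smul_smul, h t]

namespace Act

variable (A : Act L E M)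
include A

omit [IsTopologicalGroup G] [FiniteDimensional ℝ E] [IsManifold 𝓘(ℝ, E) 1 M] in
lemma hasFDerivAt_ev {x y : M} (hx : x ∈ (chartAt E y).source) :
    HasFDerivAt (fun X => chartAt E y (L.e X • x)) (ev L E y x) 0 :=
  (A.se x y hx).hasFDerivAt

omit [FiniteDimensional ℝ E] in
lemma equiv (a : G) {x y y' : M} (hx : x ∈ (chartAt E y).source)
    (hx' : a • x ∈ (chartAt E y').source) (X : sp g) :
    fderiv ℝ (loc E (fun x => a • x) y y') (chartAt E y x) (ev L E y x X) =
      ev L E y' (a • x) (Ad (π a) X) := by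
  have h1 := ((contDiffAt_loc (A.sm a) hx hx').differentiableAt (by simp)).hasFDerivAt
  have h2 := A.hasFDerivAt_ev hx
  have h3 := HasFDerivAt.comp (0 : sp g) (by simpa [L.zero] using h1) h2
  let T : sp g →L[ℝ] sp g := LinearMap.toContinuousLinearMap (Ad (π a))
  have h4 := HasFDerivAt.comp (0 : sp g) (f := T)
    (by rw [map_zero]; exact A.hasFDerivAt_ev hx') T.hasFDerivAt
  have h5 : ∀ᶠ X in 𝓝 (0 : sp g), L.e X • x ∈ (chartAt E y).source :=
    (A.ce x).continuousAt.eventually
      ((chartAt E y).open_source.mem_nhds (by simpa [L.zero] using hx))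
  have h6 := h3.unique (h4.congr_of_eventuallyEq (h5.mono fun X hX => by
    change chartAt E y' (a • (chartAt E y).symm (chartAt E y (L.e X • x))) =
      chartAt E y' (L.e (Ad (π a) X) • a • x)
    rw [(chartAt E y).left_inv hX, ← L.conj, mul_smul, mul_smul, inv_smul_smul]))
  exact congrArg (fun S : sp g →L[ℝ] E => S X) h6

omit [IsTopologicalGroup G] [FiniteDimensional ℝ E] [IsManifold 𝓘(ℝ, E) 1 M] in
lemma hasDerivAt_ev {x y : M} (hx : x ∈ (chartAt E y).source) (X : sp g) :
    HasDerivAt (fun s : ℝ => chartAt E y (L.e (s • X) • x)) (ev L E y x X) 0 := by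
  have h1 : HasDerivAt (fun s : ℝ => s • X) X 0 := by
    have := (hasDerivAt_id (0 : ℝ)).smul_const X
    rwa [one_smul] at this
  exact HasFDerivAt.comp_hasDerivAt (0 : ℝ) (f := fun s : ℝ => s • X)
    (by rw [zero_smul]; exact A.hasFDerivAt_ev hx) h1

omit [FiniteDimensional ℝ E] in
lemma ev_eq_zero_iff {x y : M} (hx : x ∈ (chartAt E y).source) (X : sp g) :
    ev L E y x X = 0 ↔ Fix L x X := by
  refine ⟨fun h => ?_, fun h => ?_⟩
  · let c : ℝ → M := fun t => L.e (t • X) • x
    have hc : Continuous c := (A.ce x).comp (by fun_prop)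
    have hd : ∀ t y', c t ∈ (chartAt E y').source →
        HasDerivAt (fun s => chartAt E y' (c s)) 0 t := by
      intro t y' ht
      have h1 := A.equiv (L.e (t • X)) hx ht X
      have h2 : Ad (π (L.e (t • X))) X = X := by
        apply Subtype.ext
        rw [coe_Ad, L.lifts, Submodule.coe_smul,
          ← ((Commute.refl X.1).smul_right t).exp_right.eq, Matrix.mul_assoc]
        rw [show exp (t • X.1) = (π (L.e (t • X)) : Mat g) from (L.lifts (t • X)).symm,
          coe_mul_inv, mul_one]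
      rw [h, map_zero, h2] at h1
      have h3 := A.hasDerivAt_ev ht X
      rw [← h1] at h3
      have h4 := HasDerivAt.comp_sub_const t t (by rwa [sub_self])
      refine h4.congr_of_eventuallyEq (Eventually.of_forall fun s => ?_)
      simp only [c]
      rw [← mul_smul, ← L.e_add_smul, sub_add_cancel]
    have hlc : IsLocallyConstant c := by
      rw [IsLocallyConstant.iff_eventually_eq]
      intro t
      obtain ⟨r, hr, hb⟩ := Metric.mem_nhds_iff.mp (hc.continuousAt.preimage_mem_nhds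
        ((chartAt E (c t)).open_source.mem_nhds (mem_chart_source E (c t))))
      filter_upwards [Metric.ball_mem_nhds t hr] with s hs
      refine (chartAt E (c t)).injOn (hb hs) (mem_chart_source E (c t)) ?_
      exact Metric.isOpen_ball.is_const_of_deriv_eq_zero (convex_ball t r).isPreconnected
        (f := fun s => chartAt E (c t) (c s))
        (fun u hu => (hd u _ (hb hu)).differentiableAt.differentiableWithinAt)
        (fun u hu => (hd u _ (hb hu)).deriv) hs (Metric.mem_ball_self hr)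
    intro t
    have := hlc.apply_eq_of_preconnectedSpace t 0
    simpa [c, L.zero] using this
  · have h1 := A.hasDerivAt_ev hx X
    simp only [h _] at h1
    exact h1.unique (hasDerivAt_const _ _)

lemma surj (a : G) {x y y' : M} (hx : x ∈ (chartAt E y).source)
    (hx' : a • x ∈ (chartAt E y').source) (h : Function.Surjective (ev L E y x)) :
    Function.Surjective (ev L E y' (a • x)) := by
  have h1 := A.equiv a⁻¹ hx' (y' := y) (by rwa [inv_smul_smul])
  rw [inv_smul_smul] at h1
  set D := fderiv ℝ (loc E (fun x => a⁻¹ • x) y' y) (chartAt E y' (a • x))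
  have h2 : ∀ w, ∃ X, D (ev L E y' (a • x) X) = w := by
    intro w
    obtain ⟨X, rfl⟩ := h w
    refine ⟨Ad (π a) X, ?_⟩
    rw [h1, map_inv]
    conv_lhs => rw [← inv_inv (π a)]
    rw [inv_inv (π a)⁻¹, Ad_Ad_inv]
  have h3 : Function.Injective D.toLinearMap :=
    LinearMap.injective_iff_surjective.mpr fun w => let ⟨_, hX⟩ := h2 w; ⟨_, hX⟩
  intro w
  obtain ⟨X, hX⟩ := h2 (D w)
  exact ⟨X, h3 hX⟩

end Act

end Pool.Agent.MP_609e33_gt

end MrgPart1

-- ======== part 2: formerly Pool.Agent.MP_609e33_gt.Main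
section MrgPart2

/-!
A power of a generator of the centre acts trivially in dimension at most `g (g + 1) / 2`.
-/

set_option autoImplicit false

open Matrix Module NormedSpace Filter Topology Manifold

namespace Pool.Agent.MP_609e33_gt

variable {g : ℕ}

attribute [local instance] Matrix.linftyOpNormedRing Matrix.linftyOpNormedAlgebra

variable {G : Type*} [Group G] [TopologicalSpace G] [IsTopologicalGroup G] {π : G →* Sp g}
  {E : Type} [NormedAddCommGroup E] [NormedSpace ℝ E] [FiniteDimensional ℝ E]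
  {M : Type*} [TopologicalSpace M] [ChartedSpace E M] [IsManifold 𝓘(ℝ, E) 1 M] [MulAction G M]

/-- The isotropy algebra. -/
noncomputable def iso (L : ExpLift π) (E : Type) [NormedAddCommGroup E] [NormedSpace ℝ E]
    {M : Type*} [TopologicalSpace M] [ChartedSpace E M] [MulAction G M] (x : M) :
    Submodule ℝ (Mat g) :=
  (LinearMap.ker (ev L E x x).toLinearMap).map (sp g).subtype

variable {L : ExpLift π}

omit [IsTopologicalGroup G] in
lemma coe_inv_e (X : sp g) : (((π (L.e X))⁻¹ : Sp g) : Mat g) = exp (-X.1) := by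
  rw [← mul_one (((π (L.e X))⁻¹ : Sp g) : Mat g), ← exp_mul_neg X.1, ← Matrix.mul_assoc,
    ← L.lifts X, coe_inv_mul, one_mul]

omit [IsTopologicalGroup G] [FiniteDimensional ℝ E] [IsManifold 𝓘(ℝ, E) 1 M] in
lemma iso_le (x : M) : iso L E x ≤ sp g := Submodule.map_subtype_le _ _

lemma a0_mem : a0 g ∈ pp g := by
  constructor
  · simp [a0, fromBlocks_transpose]
  · simp [a0, Matrix.J, fromBlocks_multiply, fromBlocks_neg]

lemma a0_sq : a0 g * a0 g = 1 := by
  simp [a0, fromBlocks_multiply]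

lemma poly_identity {a : Mat g} (haa : a * a = 1) (X : Mat g) {p q : ℝ} (h : p ^ 2 = 1 + q ^ 2) :
    (p • 1 + q • a) * ((p • 1 + q • a) * X * (p • 1 - q • a)) * (p • 1 - q • a) + X -
      (2 * (p ^ 2 + q ^ 2)) • ((p • 1 + q • a) * X * (p • 1 - q • a)) =
      (1 - (p ^ 2 + q ^ 2)) • (X + a * X * a) := by
  have h1 : ∀ Y : Mat g, a * (a * Y) = Y := fun Y => by rw [← Matrix.mul_assoc, haa, one_mul]
  simp only [mul_add, add_mul, mul_sub, sub_mul, smul_mul_assoc, mul_smul_comm, Matrix.mul_assoc,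
    one_mul, mul_one, h1, haa]
  match_scalars
  · linear_combination (-p ^ 2 - q ^ 2) * h
  · ring
  · ring
  · linear_combination (1 - 2 * q ^ 2) * h

namespace Act

variable (A : Act L E M)
include A

omit [FiniteDimensional ℝ E] in
lemma mem_iso (x : M) (X : sp g) : X.1 ∈ iso L E x ↔ Fix L x X := by
  rw [← A.ev_eq_zero_iff (mem_chart_source E x)]
  refine ⟨?_, fun h => ⟨X, h, rfl⟩⟩
  rintro ⟨Y, hY, h⟩
  rw [← Subtype.ext h]
  exact hY

omit [FiniteDimensional ℝ E] in
lemma iso_conj (a : G) {x : M} {X : Mat g} (h : X ∈ iso L E x) :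
    (π a : Mat g) * X * (((π a)⁻¹ : Sp g) : Mat g) ∈ iso L E (a • x) :=
  (A.mem_iso _ (Ad (π a) ⟨X, iso_le x h⟩)).mpr (((A.mem_iso x ⟨X, iso_le x h⟩).mp h).conj a)

omit [FiniteDimensional ℝ E] in
lemma iso_lie (x : M) : ∀ X ∈ iso L E x, ∀ Y ∈ iso L E x, X * Y - Y * X ∈ iso L E x := by
  intro X hX Y hY
  have h1 : ∀ t : ℝ, exp (t • X) * Y * exp (t • (-X)) ∈ iso L E x := by
    intro t
    have := A.iso_conj (L.e (t • ⟨X, iso_le x hX⟩)) hY
    rwa [(A.mem_iso x ⟨X, iso_le x hX⟩).mp hX t, coe_inv_e, L.lifts, Submodule.coe_smul,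
      ← smul_neg] at this
  refine (iso L E x).closed_of_finiteDimensional.mem_of_tendsto
    (hasDerivAt_iff_tendsto_slope.mp (hasDerivAt_conj X Y)) (Eventually.of_forall fun t => ?_)
  exact (iso L E x).smul_mem _ ((iso L E x).sub_mem (h1 t) (h1 0))

lemma finite_set [T2Space M] [CompactSpace M] :
    {x : M | a0 g ∈ iso L E x ∧ (∀ X ∈ sp g, X + a0 g * X * a0 g ∈ iso L E x) ∧
      Function.Surjective (ev L E x x)}.Finite := by
  let X0 : sp g := ⟨a0 g, pp_le_sp a0_mem⟩
  have hfix : ∀ x : M, a0 g ∈ iso L E x → L.e X0 • x = x := fun x hx => by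
    simpa using (A.mem_iso x X0).mp hx 1
  refine finite_fixed (A.sm (L.e X0)) (c := Real.cosh 1 ^ 2 + Real.sinh 1 ^ 2) ?_
    (fun x hx => hfix x hx.1) ?_
  · have h1 := Real.cosh_sq' 1
    have h2 : 0 < Real.sinh 1 := Real.sinh_pos_iff.mpr one_pos
    nlinarith
  · rintro x ⟨h1, h2, h3⟩ y hy w
    have h4 := A.surj 1 (mem_chart_source E x) (y' := y) (by rwa [one_smul]) h3
    rw [one_smul] at h4
    obtain ⟨X, rfl⟩ := h4 w
    have h5 := A.equiv (L.e X0) hy (y' := y) (by rwa [hfix x h1])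
    rw [hfix x h1] at h5
    rw [h5, h5, ← sub_eq_zero, ← map_smul, ← map_add, ← map_sub, A.ev_eq_zero_iff hy,
      ← A.mem_iso]
    have e1 : (π (L.e X0) : Mat g) = Real.cosh 1 • 1 + Real.sinh 1 • a0 g := by
      rw [L.lifts, ← exp_inv a0_sq, one_smul]
    have e2 : (((π (L.e X0))⁻¹ : Sp g) : Mat g) = Real.cosh 1 • 1 - Real.sinh 1 • a0 g := by
      rw [coe_inv_e, ← neg_one_smul ℝ, exp_inv a0_sq, Real.cosh_neg, Real.sinh_neg, neg_smul,
        sub_eq_add_neg]
    rw [Submodule.coe_sub, Submodule.coe_add, Submodule.coe_smul, coe_Ad, coe_Ad, e1, e2,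
      poly_identity a0_sq _ (Real.cosh_sq' 1)]
    exact (iso L E x).smul_mem _ (h2 _ X.2)

theorem not_faithful [T2Space M] [CompactSpace M] [SimplyConnectedSpace G] (hg : 1 ≤ g)
    (hs : Function.Surjective π) (hd : finrank ℝ E ≤ (g + 1).choose 2) :
    ¬ FaithfulSMul G M := by
  intro hF
  obtain ⟨z, hz, hrot⟩ := L.exists_z0 hg
  have hfin := A.finite_set
  set S := {x : M | a0 g ∈ iso L E x ∧ (∀ X ∈ sp g, X + a0 g * X * a0 g ∈ iso L E x) ∧
      Function.Surjective (ev L E x x)} with hS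
  have hiz : ∀ (x : M) (X : Mat g), X ∈ iso L E x → X ∈ iso L E (z • x) := fun x X h => by
    simpa [hz] using A.iso_conj z h
  have hzS : ∀ x ∈ S, z • x ∈ S := fun x hx =>
    ⟨hiz _ _ hx.1, fun X hX => hiz _ _ (hx.2.1 X hX),
      A.surj z (mem_chart_source E x) (mem_chart_source E _) hx.2.2⟩
  have hper : ∀ x ∈ S, ∃ r, 0 < r ∧ z ^ r ∈ MulAction.stabilizer G x := by
    intro x hx
    have h1 : ∀ n : ℕ, z ^ n • x ∈ S := fun n => by
      induction n with
      | zero => simpa using hx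
      | succ n ih => rw [pow_succ', mul_smul]; exact hzS _ ih
    obtain ⟨i, j, hij, h2⟩ := hfin.exists_lt_map_eq_of_forall_mem h1
    refine ⟨j - i, by omega, ?_⟩
    rw [MulAction.mem_stabilizer_iff, ← smul_left_cancel_iff (z ^ i), ← mul_smul, ← pow_add,
      Nat.add_sub_cancel' hij.le, h2]
  choose! r hr0 hr using hper
  set K := (∏ x ∈ hfin.toFinset, r x) * (2 * g).factorial with hK
  have hK0 : 0 < K := Nat.mul_pos (Finset.prod_pos fun x hx => hr0 x (hfin.mem_toFinset.mp hx))
    (Nat.factorial_pos _)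
  have hall : ∀ x : M, z ^ K • x = x := by
    intro x
    rcases dichotomy (A.iso_lie x) (ev L E x x).toLinearMap
      (fun X => ((A.ev_eq_zero_iff (mem_chart_source E x) X).trans (A.mem_iso x X).symm)) hd with
      ⟨P, h0, h1, h2, h3, h4⟩ | ⟨a, h1, h2, h3, h4, h5⟩
    · obtain ⟨m, hm, hm1, hm2⟩ := hrot P h1 h3 h2
      have h5 : z ^ m ∈ MulAction.stabilizer G x := by
        rw [← hm2]
        exact (A.mem_iso x (rot P h1 h3)).mp h4 _
      obtain ⟨k, hk⟩ : m ∣ K := (Nat.dvd_factorial (hm1 h0) hm).mul_left _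
      rw [hk, pow_mul]
      exact pow_mem h5 k
    · obtain ⟨B, hB, hB'⟩ := exists_conj h2 h3
      obtain ⟨b, hb⟩ := hs (⟨B, hB⟩ : Sp g)⁻¹
      have c1 := coe_inv_mul (⟨B, hB⟩ : Sp g)
      have c2 := coe_mul_inv (⟨B, hB⟩ : Sp g)
      set C := (((⟨B, hB⟩ : Sp g)⁻¹ : Sp g) : Mat g) with hC
      have c3 : ∀ X ∈ iso L E x, C * X * B ∈ iso L E (b • x) := fun X hX => by
        simpa only [hb, inv_inv] using A.iso_conj b hX
      have c4 : C * a * B = a0 g := by
        rw [Matrix.mul_assoc, hB', ← Matrix.mul_assoc, c1, one_mul]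
      have hbS : b • x ∈ S := by
        refine ⟨c4 ▸ c3 a h1, fun X hX => ?_,
          A.surj b (mem_chart_source E x) (mem_chart_source E _) h5⟩
        have := c3 _ (h4 _ (Ad (⟨B, hB⟩ : Sp g) ⟨X, hX⟩).2)
        convert this using 1
        have d1 : ∀ Y : Mat g, C * (B * Y) = Y := fun Y => by
          rw [← Matrix.mul_assoc, c1, one_mul]
        have d2 : ∀ Y : Mat g, B * (C * Y) = Y := fun Y => by
          rw [← Matrix.mul_assoc, c2, one_mul]
        rw [coe_Ad, ← c4, ← hC]
        simp only [mul_add, add_mul, Matrix.mul_assoc, d1, c1, mul_one]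
      obtain ⟨k, hk⟩ : r (b • x) ∣ K :=
        (Finset.dvd_prod_of_mem r (hfin.mem_toFinset.mpr hbS)).mul_right _
      have h6 : z ^ K • b • x = b • x := by
        rw [hk, pow_mul]
        exact pow_mem (hr _ hbS) k
      rwa [← mul_smul, ← L.central (z := z ^ K) (by rw [map_pow, hz, one_pow]) b, mul_smul,
        smul_left_cancel_iff] at h6
  have hzK : z ^ K = 1 := hF.eq_of_smul_eq_smul fun x => by rw [hall, one_smul]
  obtain ⟨m, -, -, hm⟩ := hrot 1 (by simp) (by simp) (by simp)
  refine L.ne_one hg (T := K * (2 * Real.pi)) (by positivity) ?_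
  rw [mul_smul, L.e_nsmul, hm, ← pow_mul, mul_comm, pow_mul, hzK, one_pow]

end Act

end Pool.Agent.MP_609e33_gt

end MrgPart2

-- ======== part 3: formerly Pool.Agent.MP_609e33_gt.Smooth
section MrgPart3

/-!
The lifted exponential map is differentiable for the Lie group structure of the covering group.
-/

set_option autoImplicit false

open Matrix Module NormedSpace Filter Topology Manifold ContDiff

namespace Pool.Agent.MP_609e33_gt

variable {g : ℕ}

attribute [local instance] Matrix.linftyOpNormedRing Matrix.linftyOpNormedAlgebra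

variable {G : Type*} [Group G] [TopologicalSpace G] {π : G →* Sp g}
  {F : Type} [NormedAddCommGroup F] [NormedSpace ℝ F] [FiniteDimensional ℝ F]
  [ChartedSpace F G] [LieGroup 𝓘(ℝ, F) ∞ G]

/-- Arrays of matrix entries. -/
abbrev Arr (g : ℕ) : Type := (Fin g ⊕ Fin g) → (Fin g ⊕ Fin g) → ℝ

/-- The entries of a matrix. -/
noncomputable def ent (g : ℕ) : Mat g →L[ℝ] Arr g :=
  LinearMap.toContinuousLinearMap
    { toFun := fun A i j => A i j, map_add' := fun _ _ => rfl, map_smul' := fun _ _ => rfl }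

/-- Left multiplication on arrays. -/
noncomputable def lmul (A : Mat g) : Arr g →L[ℝ] Arr g :=
  LinearMap.toContinuousLinearMap
    { toFun := fun B i j => ∑ k, A i k * B k j
      map_add' := fun _ _ => by
        ext i j
        simp [mul_add, Finset.sum_add_distrib]
      map_smul' := fun _ _ => by
        ext i j
        simp only [Pi.smul_apply, smul_eq_mul, RingHom.id_apply, Finset.mul_sum, mul_left_comm] }

set_option backward.isDefEq.respectTransparency false in
lemma injective_mfderiv (hπ : IsCoveringMap π)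
    (hp : ContMDiff 𝓘(ℝ, F) 𝓘(ℝ, Arr g) 1 fun a => ent g (π a : Mat g)) :
    Function.Injective (mfderiv 𝓘(ℝ, F) 𝓘(ℝ, Arr g) (fun a => ent g (π a : Mat g)) 1) := by
  have : CompleteSpace F := FiniteDimensional.complete ℝ F
  have : LieGroup 𝓘(ℝ, F) (minSmoothness ℝ 3) G := LieGroup.of_le (n := ∞) (by
    rw [minSmoothness_of_isRCLikeNormedField]; exact ENat.LEInfty.out)
  have : IsManifold 𝓘(ℝ, F) 1 G := IsManifold.of_le (n := ∞) (by exact_mod_cast le_top)
  rw [injective_iff_map_eq_zero]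
  intro v hv
  set p : G → Arr g := fun a => ent g (π a : Mat g) with hpdef
  have hpd : ∀ a, MDifferentiableAt 𝓘(ℝ, F) 𝓘(ℝ, Arr g) p a := fun a =>
    (hp a).mdifferentiableAt one_ne_zero
  have hV : ∀ a, mfderiv 𝓘(ℝ, F) 𝓘(ℝ, Arr g) p a (mulInvariantVectorField v a) = 0 := by
    intro a
    have h1 : MDifferentiableAt 𝓘(ℝ, F) 𝓘(ℝ, F) (a * ·) (1 : G) :=
      (contMDiff_mul_left (n := ∞) 1).mdifferentiableAt (by simp)
    have h2 := HasMFDerivAt.comp (1 : G) (f := (a * ·)) (g := p)
      (g' := (mfderiv 𝓘(ℝ, F) 𝓘(ℝ, Arr g) p a : F →L[ℝ] Arr g))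
      (by rw [mul_one]; exact (hpd a).hasMFDerivAt) h1.hasMFDerivAt
    have h3 := HasMFDerivAt.comp (1 : G) (f := p)
      (lmul (π a : Mat g)).hasMFDerivAt (hpd 1).hasMFDerivAt
    have h4 : p ∘ (a * ·) = lmul (π a : Mat g) ∘ p := by
      funext b
      simp only [Function.comp_apply, hpdef, map_mul, Submonoid.coe_mul]
      rfl
    rw [h4] at h2
    have h5 := congrArg (fun S : F →L[ℝ] Arr g => S v) (hasMFDerivAt_unique h2 h3)
    refine h5.trans ?_
    change lmul _ (mfderiv 𝓘(ℝ, F) 𝓘(ℝ, Arr g) p 1 v) = 0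
    rw [hv, map_zero]
  obtain ⟨γ, h0, hγ⟩ := exists_isMIntegralCurveAt_of_contMDiffAt_boundaryless (0 : ℝ)
    ((contMDiffAt_mulInvariantVectorField v (g := 1)).of_le
      (le_trans (by norm_num) le_minSmoothness))
  obtain ⟨r, hr, hb⟩ := Metric.eventually_nhds_iff_ball.mp hγ
  have hd : ∀ t ∈ Metric.ball (0 : ℝ) r, HasDerivAt (p ∘ γ) 0 t := by
    intro t ht
    have h1 := (hpd (γ t)).hasMFDerivAt.comp t (hb t ht)
    rw [hasMFDerivAt_iff_hasFDerivAt] at h1
    refine h1.hasDerivAt.congr_deriv ?_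
    change mfderiv 𝓘(ℝ, F) 𝓘(ℝ, Arr g) p (γ t) ((1 : ℝ) • mulInvariantVectorField v (γ t)) = 0
    rw [one_smul, hV]
  have hc : ∀ t ∈ Metric.ball (0 : ℝ) r, γ t = γ 0 := fun t ht =>
    hπ.constOn_of_comp (convex_ball (0 : ℝ) r).isPreconnected
      (fun s hs => (hb s hs).continuousAt.continuousWithinAt)
      (fun a ha b hb' => Subtype.ext (Metric.isOpen_ball.is_const_of_deriv_eq_zero
        (convex_ball (0 : ℝ) r).isPreconnected (f := p ∘ γ)
        (fun u hu => (hd u hu).differentiableAt.differentiableWithinAt)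
        (fun u hu => (hd u hu).deriv) ha hb')) ht (Metric.mem_ball_self hr)
  have h1 := (hb 0 (Metric.mem_ball_self hr))
  have h2 : HasMFDerivAt 𝓘(ℝ, ℝ) 𝓘(ℝ, F) γ 0 0 :=
    (hasMFDerivAt_const (γ 0) (0 : ℝ)).congr_of_eventuallyEq
      (by filter_upwards [Metric.ball_mem_nhds (0 : ℝ) hr] with t ht using hc t ht)
  have h3 := congrArg (fun S : ℝ →L[ℝ] F => S 1) (hasMFDerivAt_unique h1 h2)
  have h4 : mulInvariantVectorField v (γ 0) = 0 := (one_smul ℝ _).symm.trans h3
  rw [h0] at h4
  have h5 : (fun b : G => 1 * b) = id := funext fun b => one_mul b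
  rw [mulInvariantVectorField, h5, mfderiv_id] at h4
  exact h4

lemma differentiableAt_chart_e (L : ExpLift π)
    (hp : ContMDiff 𝓘(ℝ, F) 𝓘(ℝ, Arr g) 1 fun a => ent g (π a : Mat g)) :
    DifferentiableAt ℝ (fun X => chartAt F (1 : G) (L.e X)) 0 := by
  have : CompleteSpace F := FiniteDimensional.complete ℝ F
  have : IsManifold 𝓘(ℝ, F) 1 G := IsManifold.of_le (n := ∞) (by exact_mod_cast le_top)
  have hinj := injective_mfderiv L.cov hp
  set p : G → Arr g := fun a => ent g (π a : Mat g) with hpdef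
  set ψ := chartAt F (1 : G) with hψ
  have h1 : (1 : G) ∈ ψ.source := mem_chart_source F 1
  have hq : ContDiffAt ℝ 1 (p ∘ ψ.symm) (ψ 1) := by
    rw [← contMDiffAt_iff_contDiffAt]
    exact (hp _).comp (ψ 1)
      (contMDiffOn_chart_symm.contMDiffAt (ψ.open_target.mem_nhds (ψ.map_source h1)))
  have hq' : mfderiv 𝓘(ℝ, F) 𝓘(ℝ, Arr g) p 1 = fderiv ℝ (p ∘ ψ.symm) (ψ 1) := by
    rw [((hp 1).mdifferentiableAt one_ne_zero).mfderiv]
    simp [writtenInExtChartAt, hψ, fderivWithin_univ]
  rw [hq'] at hinj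
  obtain ⟨l, hl⟩ := (fderiv ℝ (p ∘ ψ.symm) (ψ 1)).toLinearMap.exists_leftInverse_of_injective
    (LinearMap.ker_eq_bot.mpr hinj)
  let l' : Arr g →L[ℝ] F := LinearMap.toContinuousLinearMap l
  have hs : HasStrictFDerivAt (l' ∘ p ∘ ψ.symm)
      ((ContinuousLinearEquiv.refl ℝ F : F ≃L[ℝ] F) : F →L[ℝ] F) (ψ 1) := by
    refine (l'.hasStrictFDerivAt.comp (ψ 1) (hq.hasStrictFDerivAt one_ne_zero)).congr_fderiv ?_
    ext1 w
    exact LinearMap.congr_fun hl w
  have he : Tendsto L.e (𝓝 0) (𝓝 1) := L.zero ▸ L.cont.tendsto 0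
  have h2 : ∀ᶠ X in 𝓝 (0 : sp g), L.e X ∈ ψ.source := he.eventually (ψ.open_source.mem_nhds h1)
  have h3 := ((ψ.continuousAt h1).tendsto.comp he).eventually hs.eventually_left_inverse
  have h4 : DifferentiableAt ℝ (fun X : sp g => l' (ent g (exp X.1))) 0 := by
    refine l'.differentiableAt.comp _ ((ent g).differentiableAt.comp _ ?_)
    exact DifferentiableAt.comp (0 : sp g) (g := exp) (f := (sp g).subtypeL)
      (hasFDerivAt_exp_zero (𝕂 := ℝ)).differentiableAt (sp g).subtypeL.differentiableAt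
  have h5 : (l' ∘ p ∘ ψ.symm) (ψ 1) = l' (ent g (exp (0 : sp g).1)) := by
    simp only [Function.comp_apply, ψ.left_inv h1, hpdef, ← L.lifts, L.zero]
  have h6 := DifferentiableAt.comp (0 : sp g) (h5 ▸ hs.to_localInverse.differentiableAt) h4
  refine h6.congr_of_eventuallyEq ?_
  filter_upwards [h2, h3] with X hX hX'
  refine hX'.symm.trans ?_
  simp only [Function.comp_apply, ψ.left_inv hX, hpdef, L.lifts]

theorem act_of_contMDiff (L : ExpLift π)
    (hp : ∀ i j, ContMDiff 𝓘(ℝ, F) 𝓘(ℝ, ℝ) 1 fun a => (π a : Mat g) i j)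
    {E : Type} [NormedAddCommGroup E] [NormedSpace ℝ E]
    {M : Type*} [TopologicalSpace M] [ChartedSpace E M] [IsManifold 𝓘(ℝ, E) 1 M] [MulAction G M]
    (h : ContMDiff (𝓘(ℝ, F).prod 𝓘(ℝ, E)) 𝓘(ℝ, E) 1 fun p : G × M => p.1 • p.2) :
    Act L E M := by
  have : IsManifold 𝓘(ℝ, F) 1 G := IsManifold.of_le (n := ∞) (by exact_mod_cast le_top)
  have hp' : ContMDiff 𝓘(ℝ, F) 𝓘(ℝ, Arr g) 1 fun a => ent g (π a : Mat g) :=
    contMDiff_pi_space.mpr fun i => contMDiff_pi_space.mpr fun j => hp i j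
  have ho : ∀ x : M, ContMDiff 𝓘(ℝ, F) 𝓘(ℝ, E) 1 fun a : G => a • x := fun x =>
    h.comp (contMDiff_id.prodMk contMDiff_const)
  refine ⟨fun a => h.comp (contMDiff_const.prodMk contMDiff_id),
    fun x => (ho x).continuous.comp L.cont, fun x y hx => ?_⟩
  set ψ := chartAt F (1 : G) with hψ
  have h1 : (1 : G) ∈ ψ.source := mem_chart_source F 1
  have h2 : ContDiffAt ℝ 1 (fun v => chartAt E y (ψ.symm v • x)) (ψ 1) := by
    rw [← contMDiffAt_iff_contDiffAt]
    have h3 : ContMDiffAt 𝓘(ℝ, E) 𝓘(ℝ, E) 1 (chartAt E y) (ψ.symm (ψ 1) • x) := by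
      rw [ψ.left_inv h1, one_smul]
      exact contMDiffOn_chart.contMDiffAt ((chartAt E y).open_source.mem_nhds hx)
    exact h3.comp (ψ 1) ((ho x _).comp (ψ 1)
      (contMDiffOn_chart_symm.contMDiffAt (ψ.open_target.mem_nhds (ψ.map_source h1))))
  have h4 := DifferentiableAt.comp (0 : sp g) (f := fun X => ψ (L.e X))
    (by rw [L.zero]; exact h2.differentiableAt one_ne_zero) (differentiableAt_chart_e L hp')
  have he : Tendsto L.e (𝓝 0) (𝓝 1) := L.zero ▸ L.cont.tendsto 0
  refine h4.congr_of_eventuallyEq ?_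
  filter_upwards [he.eventually (ψ.open_source.mem_nhds h1)] with X hX
  simp only [Function.comp_apply, ψ.left_inv hX]

end Pool.Agent.MP_609e33_gt

end MrgPart3

-- marker of a merged file
example : 731051 + 31575 = 731051 + 31575 := rfl
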