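import Mathlib
import Pool.Agent.MP_609e33_gt.Smooth

/-!
# MP_609e33_gt: a closed manifold with a faithful action of the universal cover of `Sp(2g, ℝ)`
has dimension at least `g (g + 1) / 2 + 1`

The universal covering group enters as any simply connected Lie group `G` with a smooth
surjective homomorphism `π : G → Sp(2g, ℝ)` that is a covering map.
The manifold and the action are only assumed to be of class `C¹`.
-/

set_option autoImplicit false

open scoped Manifold ContDiff

namespace Pool.Agent.Results.MP_609e33_gt.LowerBound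

open Pool.Agent.MP_609e33_gt in
theorem result (g : ℕ) (hg : 1 ≤ g)
    (G : Type*) [Group G] [TopologicalSpace G] (n : ℕ)
    [ChartedSpace (EuclideanSpace ℝ (Fin n)) G] [LieGroup (𝓡 n) ∞ G] [SimplyConnectedSpace G]
    (π : G →* Matrix.symplecticGroup (Fin g) ℝ) (hcov : IsCoveringMap π)
    (hsurj : Function.Surjective π)
    (hπ : ∀ i j, ContMDiff (𝓡 n) 𝓘(ℝ, ℝ) ∞
      fun a => (π a : Matrix (Fin g ⊕ Fin g) (Fin g ⊕ Fin g) ℝ) i j)
    (d : ℕ) (M : Type*) [TopologicalSpace M] [T2Space M] [CompactSpace M]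
    [ChartedSpace (EuclideanSpace ℝ (Fin d)) M] [IsManifold (𝓡 d) 1 M] [MulAction G M]
    (hact : ContMDiff ((𝓡 n).prod (𝓡 d)) (𝓡 d) 1 fun p : G × M => p.1 • p.2)
    [FaithfulSMul G M] : g * (g + 1) / 2 + 1 ≤ d := by
  by_contra hd
  have := topologicalGroup_of_lieGroup (𝓡 n) ∞ (G := G)
  obtain ⟨L⟩ := exists_expLift hcov
  refine (act_of_contMDiff L (fun i j => (hπ i j).of_le (by exact_mod_cast le_top))
    hact).not_faithful hg hsurj ?_ inferInstance
  rw [finrank_euclideanSpace_fin, Nat.choose_two_right, Nat.add_sub_cancel, mul_comm]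
  omega

end Pool.Agent.Results.MP_609e33_gt.LowerBound
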